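import Pool.Agent.H525.EX.Stm2

/-!
# Task EX/EXP: expansion of the Euler product (helper79)
-/

namespace Pool.Agent.H79.EX

open Polynomial UniqueFactorizationMonoid
open Pool.Agent.H985.Chow (mob)
open Pool.Agent.H525.QF
open Pool.Agent.H525.EX
open scoped Classical

section pw

variable {K : Type} [Field K] {ι : Type} [Fintype ι]

/-- products of powers -/
noncomputable def pw (p : ι → K[X]) (e : ι → ℕ) : K[X] := ∏ i, p i ^ e i

theorem nf_prod (p : ι → K[X]) (hp : ∀ i, (p i).Monic ∧ Irreducible (p i)) (e : ι → ℕ)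
    (S : Finset ι) : (∏ i ∈ S, p i ^ e i).Monic ∧
      normalizedFactors (∏ i ∈ S, p i ^ e i) = ∑ i ∈ S, e i • ({p i} : Multiset K[X]) := by
  induction S using Finset.induction_on with
  | empty =>
    rw [Finset.prod_empty, Finset.sum_empty]
    exact ⟨monic_one, normalizedFactors_one⟩
  | insert j S hj ih =>
    rw [Finset.prod_insert hj, Finset.sum_insert hj]
    have h1 : (p j ^ e j).Monic := (hp j).1.pow _
    refine ⟨h1.mul ih.1, ?_⟩
    rw [normalizedFactors_mul h1.ne_zero ih.1.ne_zero, ih.2, normalizedFactors_pow,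
      normalizedFactors_irreducible (hp j).2, (hp j).1.normalize_eq_self]

theorem pw_monic (p : ι → K[X]) (hp : ∀ i, (p i).Monic ∧ Irreducible (p i)) (e : ι → ℕ) :
    (pw p e).Monic := (nf_prod p hp e Finset.univ).1

theorem nf_pw (p : ι → K[X]) (hp : ∀ i, (p i).Monic ∧ Irreducible (p i)) (e : ι → ℕ) :
    normalizedFactors (pw p e) = ∑ i, e i • ({p i} : Multiset K[X]) :=
  (nf_prod p hp e Finset.univ).2

theorem count_pw (p : ι → K[X]) (hp : ∀ i, (p i).Monic ∧ Irreducible (p i))
    (hinj : Function.Injective p) (e : ι → ℕ) (j : ι) :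
    (normalizedFactors (pw p e)).count (p j) = e j := by
  rw [nf_pw p hp, Multiset.count_sum', Finset.sum_eq_single j]
  · rw [Multiset.count_nsmul, Multiset.count_singleton_self, mul_one]
  · intro i _ hij
    rw [Multiset.count_nsmul, Multiset.count_singleton, if_neg (fun h => hij (hinj h).symm),
      mul_zero]
  · intro h
    exact absurd (Finset.mem_univ _) h

theorem count_pw_zero (p : ι → K[X]) (hp : ∀ i, (p i).Monic ∧ Irreducible (p i)) (e : ι → ℕ)
    {Q : K[X]} (hQ : ∀ i, p i ≠ Q) : (normalizedFactors (pw p e)).count Q = 0 := by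
  rw [nf_pw p hp, Multiset.count_sum']
  refine Finset.sum_eq_zero fun i _ => ?_
  rw [Multiset.count_nsmul, Multiset.count_singleton, if_neg (fun h => hQ i h.symm), mul_zero]

theorem card_pw (p : ι → K[X]) (hp : ∀ i, (p i).Monic ∧ Irreducible (p i)) (e : ι → ℕ) :
    Multiset.card (normalizedFactors (pw p e)) = ∑ i, e i := by
  rw [nf_pw p hp, Multiset.card_sum]
  refine Finset.sum_congr rfl fun i _ => ?_
  rw [Multiset.card_nsmul, Multiset.card_singleton, mul_one]

theorem deg_pw (p : ι → K[X]) (hp : ∀ i, (p i).Monic ∧ Irreducible (p i)) (e : ι → ℕ) :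
    (pw p e).natDegree = ∑ i, (p i).natDegree * e i := by
  unfold pw
  rw [natDegree_prod_of_monic _ _ fun i _ => (hp i).1.pow _]
  refine Finset.sum_congr rfl fun i _ => ?_
  rw [(hp i).1.natDegree_pow, mul_comm]

theorem monic_eq {A B : K[X]} (hA : A.Monic) (hB : B.Monic)
    (h : normalizedFactors A = normalizedFactors B) : A = B := by
  have h1 := prod_normalizedFactors_eq hA.ne_zero
  have h2 := prod_normalizedFactors_eq hB.ne_zero
  rw [hA.normalize_eq_self] at h1
  rw [hB.normalize_eq_self] at h2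
  rw [← h1, ← h2, h]

theorem eq_pw (p : ι → K[X]) (hp : ∀ i, (p i).Monic ∧ Irreducible (p i))
    (hinj : Function.Injective p) {A : K[X]} (hA : A.Monic)
    (h : ∀ Q ∈ normalizedFactors A, ∃ i, p i = Q) :
    A = pw p fun i => (normalizedFactors A).count (p i) := by
  refine monic_eq hA (pw_monic p hp _) (Multiset.ext.2 fun Q => ?_)
  by_cases hQ : ∃ i, p i = Q
  · obtain ⟨i, rfl⟩ := hQ
    rw [count_pw p hp hinj]
  · rw [count_pw_zero p hp _ (fun i hi => hQ ⟨i, hi⟩), Multiset.count_eq_zero]
    exact fun hmem => hQ (h Q hmem)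

end pw

section main

variable {K : Type} [Field K] [Fintype K]

/-- exponents `(ι, i, k)` -/
abbrev Tr : Type := Σ _ : ℕ, Σ _ : ℕ, ℕ

theorem Tr_ext {t u : Tr} (h1 : t.1 = u.1) (h2 : t.2.1 = u.2.1) (h3 : t.2.2 = u.2.2) : t = u := by
  obtain ⟨a, b, c⟩ := t
  obtain ⟨a', b', c'⟩ := u
  simp only at h1 h2 h3
  subst h1 h2 h3
  rfl

/-- the range of the exponents -/
def TT (m : ℕ) : Finset Tr :=
  (Finset.range 2).sigma fun _ => (Finset.range (m + 1)).sigma fun i => Finset.range (3 * i + 1)

theorem mem_TT {m : ℕ} {t : Tr} : t ∈ TT m ↔ t.1 < 2 ∧ t.2.1 < m + 1 ∧ t.2.2 < 3 * t.2.1 + 1 := by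
  unfold TT
  rw [Finset.mem_sigma, Finset.mem_sigma, Finset.mem_range, Finset.mem_range, Finset.mem_range]

/-- the coefficient of one term -/
noncomputable def cf (s : K[X] → ℕ → ℕ → ℕ → ℝ) (P : K[X]) (t : Tr) : ℝ :=
  (-1) ^ t.1 * ((Fintype.card K : ℝ) ^ P.natDegree) ^ t.2.1 * s P t.1 t.2.1 t.2.2

/-- one term of the local polynomial, expanded -/
noncomputable def tm (s : K[X] → ℕ → ℕ → ℕ → ℝ) (P : K[X]) (m : ℕ) (t : Tr) : ℝ[X] :=
  if 2 * t.2.1 + t.1 ≤ m then C (cf s P t) * X ^ (P.natDegree * (t.2.1 + t.2.2 + t.1)) else 0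

theorem expand_eq {h : K[X] → ℕ → ℝ[X]} {s : K[X] → ℕ → ℕ → ℕ → ℝ} (hE : HypE h s) (P : K[X])
    (m : ℕ) : expand ℝ P.natDegree (h P m) = ∑ t ∈ TT m, tm s P m t := by
  rw [hE.1 P m]
  unfold TT
  rw [Finset.sum_sigma, map_sum]
  refine Finset.sum_congr rfl fun a _ => ?_
  rw [Finset.sum_sigma, map_sum]
  refine Finset.sum_congr rfl fun i _ => ?_
  rw [map_sum]
  refine Finset.sum_congr rfl fun k _ => ?_
  unfold tm cf
  simp only
  split_ifs with hc
  · rw [map_mul, expand_C, map_pow, expand_X, ← pow_mul X P.natDegree]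
  · rw [map_zero]

/-- the index set of the right side -/
noncomputable def ZZ (K : Type) [Field K] [Fintype K] (k : ℕ) :
    Finset (Σ _ : ℕ, Σ _ : ℕ, Σ _ : K[X], Σ _ : K[X], K[X]) :=
  (Finset.range (k + 1)).sigma fun l => (Finset.range (k + 1 - l)).sigma fun i =>
    ((mon K l).filter (fun b => Squarefree b)).sigma fun _ => (mon K i).sigma fun _ =>
      mon K (k - l - i)

/-- the terms of the right side -/
noncomputable def GG (s : K[X] → ℕ → ℕ → ℕ → ℝ) (M : K[X])
    (z : Σ _ : ℕ, Σ _ : ℕ, Σ _ : K[X], Σ _ : K[X], K[X]) : ℝ :=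
  if z.2.2.2.1 ^ 2 * z.2.2.1 ∣ M then
    (mob z.2.2.1 : ℝ) * (Fintype.card K : ℝ) ^ z.2.1 * SG s z.2.2.1 z.2.2.2.1 z.2.2.2.2 else 0

theorem mob_pw {ι : Type} [Fintype ι] (p : ι → K[X]) (hp : ∀ i, (p i).Monic ∧ Irreducible (p i))
    (e : ι → ℕ) (hsq : Squarefree (pw p e)) : (mob (pw p e) : ℝ) = ∏ i, (-1) ^ e i := by
  have h1 : Multiset.card (UniqueFactorizationMonoid.factors (pw p e)) =
      Multiset.card (normalizedFactors (pw p e)) := by
    unfold normalizedFactors
    rw [Multiset.card_map]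
  unfold mob
  rw [if_pos hsq, h1, card_pw p hp, Finset.prod_pow_eq_pow_sum]
  push_cast
  rfl

theorem SG_pw {ι : Type} [Fintype ι] {h : K[X] → ℕ → ℝ[X]} {s : K[X] → ℕ → ℕ → ℕ → ℝ}
    (hE : HypE h s) (p : ι → K[X]) (hp : ∀ i, (p i).Monic ∧ Irreducible (p i))
    (hinj : Function.Injective p) (e1 e2 e3 : ι → ℕ) :
    SG s (pw p e1) (pw p e2) (pw p e3) = ∏ i, s (p i) (e1 i) (e2 i) (e3 i) := by
  have m1 := pw_monic p hp e1
  have m2 := pw_monic p hp e2
  have m3 := pw_monic p hp e3
  have hnf : ∀ P, P ∈ (normalizedFactors (pw p e1 * pw p e2 * pw p e3)).toFinset ↔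
      ¬ ((normalizedFactors (pw p e1)).count P = 0 ∧ (normalizedFactors (pw p e2)).count P = 0 ∧
        (normalizedFactors (pw p e3)).count P = 0) := by
    intro P
    rw [Multiset.mem_toFinset, normalizedFactors_mul (m1.mul m2).ne_zero m3.ne_zero,
      normalizedFactors_mul m1.ne_zero m2.ne_zero, Multiset.mem_add, Multiset.mem_add,
      Multiset.count_eq_zero, Multiset.count_eq_zero, Multiset.count_eq_zero]
    tauto
  unfold SG
  have hsub : (normalizedFactors (pw p e1 * pw p e2 * pw p e3)).toFinset ⊆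
      Finset.univ.image p := by
    intro P hP
    rw [hnf] at hP
    rw [Finset.mem_image]
    by_contra hcon
    apply hP
    have hne : ∀ i, p i ≠ P := fun i hi => hcon ⟨i, Finset.mem_univ _, hi⟩
    exact ⟨count_pw_zero p hp _ hne, count_pw_zero p hp _ hne, count_pw_zero p hp _ hne⟩
  rw [Finset.prod_subset hsub]
  · rw [Finset.prod_image fun i _ j _ hij => hinj hij]
    refine Finset.prod_congr rfl fun i _ => ?_
    rw [count_pw p hp hinj, count_pw p hp hinj, count_pw p hp hinj]
  · intro P _ hP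
    rw [hnf, not_not] at hP
    rw [hP.1, hP.2.1, hP.2.2]
    exact hE.2.2.2 P

/-- **EXP.** -/
theorem t_exp : Pool.Agent.H525.EX.S_exp := by
  intro K _ _ h s hE M hM k
  -- the primes of `M`
  set S : Finset K[X] := (normalizedFactors M).toFinset with hS
  let p : {P // P ∈ S} → K[X] := fun P => P.1
  have hinj : Function.Injective p := Subtype.val_injective
  have hmemS : ∀ P, P ∈ S ↔ P ∈ normalizedFactors M := fun P => by
    rw [hS, Multiset.mem_toFinset]
  have hp : ∀ i, (p i).Monic ∧ Irreducible (p i) := by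
    intro i
    have h1 := (hmemS _).1 i.2
    rw [mem_normalizedFactors_iff' hM.ne_zero] at h1
    refine ⟨?_, h1.1⟩
    have h2 := monic_normalize h1.1.ne_zero
    rw [h1.2.1] at h2
    exact h2
  have hrange : ∀ Q, Q ∈ normalizedFactors M → ∃ i, p i = Q := fun Q hQ =>
    ⟨⟨Q, (hmemS Q).2 hQ⟩, rfl⟩
  let m : {P // P ∈ S} → ℕ := fun P => (normalizedFactors M).count P.1
  -- the left side
  have hL : W h M = ∑ x ∈ Fintype.piFinset (fun i => TT (m i)),
      ∏ i, tm s (p i) (m i) (x i) := by
    unfold W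
    rw [← Finset.prod_univ_sum, ← hS, ← Finset.prod_coe_sort S]
    refine Finset.prod_congr rfl fun i _ => ?_
    exact expand_eq hE (p i) (m i)
  -- the right side
  have hR : (∑ l ∈ Finset.range (k + 1), ∑ i ∈ Finset.range (k + 1 - l),
        ∑ b ∈ (mon K l).filter (fun b => Squarefree b), ∑ g ∈ mon K i, ∑ g' ∈ mon K (k - l - i),
          if g ^ 2 * b ∣ M then (mob b : ℝ) * (Fintype.card K : ℝ) ^ i * SG s b g g' else 0) =
      ∑ z ∈ ZZ K k, GG s M z := by
    unfold ZZ
    rw [Finset.sum_sigma]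
    refine Finset.sum_congr rfl fun l _ => ?_
    rw [Finset.sum_sigma]
    refine Finset.sum_congr rfl fun i _ => ?_
    rw [Finset.sum_sigma]
    refine Finset.sum_congr rfl fun b _ => ?_
    rw [Finset.sum_sigma]
    rfl
  rw [hR, hL, finsetSum_coeff]
  -- the value of a term
  have hgood : ∀ x : {P // P ∈ S} → Tr, (∏ i, tm s (p i) (m i) (x i)).coeff k ≠ 0 →
      (∀ i, 2 * (x i).2.1 + (x i).1 ≤ m i) ∧
      ∑ i, (p i).natDegree * ((x i).2.1 + (x i).2.2 + (x i).1) = k := by
    intro x hx
    have h1 : ∀ i, 2 * (x i).2.1 + (x i).1 ≤ m i := by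
      intro i
      by_contra hcon
      apply hx
      rw [Finset.prod_eq_zero (Finset.mem_univ i), coeff_zero]
      unfold tm
      rw [if_neg hcon]
    refine ⟨h1, ?_⟩
    by_contra hcon
    apply hx
    have h2 : ∏ i, tm s (p i) (m i) (x i) = C (∏ i, cf s (p i) (x i)) *
        X ^ ∑ i, (p i).natDegree * ((x i).2.1 + (x i).2.2 + (x i).1) := by
      rw [map_prod, ← Finset.prod_pow_eq_pow_sum, ← Finset.prod_mul_distrib]
      refine Finset.prod_congr rfl fun i _ => ?_
      unfold tm
      rw [if_pos (h1 i)]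
    rw [h2, coeff_C_mul_X_pow, if_neg (fun h => hcon h.symm)]
  have hval : ∀ x : {P // P ∈ S} → Tr, (∀ i, x i ∈ TT (m i)) →
      (∀ i, 2 * (x i).2.1 + (x i).1 ≤ m i) →
      ∑ i, (p i).natDegree * ((x i).2.1 + (x i).2.2 + (x i).1) = k →
      (⟨(pw p fun i => (x i).1).natDegree, (pw p fun i => (x i).2.1).natDegree,
        pw p fun i => (x i).1, pw p fun i => (x i).2.1, pw p fun i => (x i).2.2⟩ :
        Σ _ : ℕ, Σ _ : ℕ, Σ _ : K[X], Σ _ : K[X], K[X]) ∈ ZZ K k ∧
      (∏ i, tm s (p i) (m i) (x i)).coeff k =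
        GG s M ⟨(pw p fun i => (x i).1).natDegree, (pw p fun i => (x i).2.1).natDegree,
        pw p fun i => (x i).1, pw p fun i => (x i).2.1, pw p fun i => (x i).2.2⟩ := by
    intro x hx h1 hk
    have d1 := deg_pw p hp fun i => (x i).1
    have d2 := deg_pw p hp fun i => (x i).2.1
    have d3 := deg_pw p hp fun i => (x i).2.2
    have hdeg : (pw p fun i => (x i).1).natDegree + (pw p fun i => (x i).2.1).natDegree +
        (pw p fun i => (x i).2.2).natDegree = k := by
      rw [d1, d2, d3, ← Finset.sum_add_distrib, ← Finset.sum_add_distrib, ← hk]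
      refine Finset.sum_congr rfl fun i _ => ?_
      ring
    have hsq : Squarefree (pw p fun i => (x i).1) := by
      rw [squarefree_iff_nodup_normalizedFactors (pw_monic p hp _).ne_zero,
        Multiset.nodup_iff_count_le_one]
      intro Q
      by_cases hQ : ∃ i, p i = Q
      · obtain ⟨i, rfl⟩ := hQ
        rw [count_pw p hp hinj]
        have := (mem_TT.1 (hx i)).1
        omega
      · rw [count_pw_zero p hp _ (fun i hi => hQ ⟨i, hi⟩)]
        exact Nat.zero_le 1
    constructor
    · unfold ZZ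
      rw [Finset.mem_sigma, Finset.mem_sigma, Finset.mem_sigma, Finset.mem_sigma,
        Finset.mem_range, Finset.mem_range, Finset.mem_filter, mem_mon, mem_mon, mem_mon]
      refine ⟨by simp only; omega, by simp only; omega, ⟨⟨pw_monic p hp _, rfl⟩, hsq⟩,
        ⟨pw_monic p hp _, rfl⟩, pw_monic p hp _, ?_⟩
      simp only
      omega
    · have h2 : ∏ i, tm s (p i) (m i) (x i) = C (∏ i, cf s (p i) (x i)) *
          X ^ ∑ i, (p i).natDegree * ((x i).2.1 + (x i).2.2 + (x i).1) := by
        rw [map_prod, ← Finset.prod_pow_eq_pow_sum, ← Finset.prod_mul_distrib]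
        refine Finset.prod_congr rfl fun i _ => ?_
        unfold tm
        rw [if_pos (h1 i)]
      rw [h2, coeff_C_mul_X_pow, if_pos hk.symm]
      have hdvd : (pw p fun i => (x i).2.1) ^ 2 * (pw p fun i => (x i).1) ∣ M := by
        have e2 := pw_monic p hp fun i => (x i).2.1
        have e1 := pw_monic p hp fun i => (x i).1
        rw [dvd_iff_normalizedFactors_le_normalizedFactors ((e2.pow 2).mul e1).ne_zero
          hM.ne_zero, normalizedFactors_mul (e2.pow 2).ne_zero e1.ne_zero,
          normalizedFactors_pow, Multiset.le_iff_count]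
        intro Q
        rw [Multiset.count_add, Multiset.count_nsmul]
        by_cases hQ : ∃ i, p i = Q
        · obtain ⟨i, rfl⟩ := hQ
          rw [count_pw p hp hinj, count_pw p hp hinj]
          exact h1 i
        · rw [count_pw_zero p hp _ (fun i hi => hQ ⟨i, hi⟩),
            count_pw_zero p hp _ (fun i hi => hQ ⟨i, hi⟩)]
          exact Nat.zero_le _
      unfold GG
      simp only
      rw [if_pos hdvd, mob_pw p hp _ hsq, SG_pw hE p hp hinj, d2, ← Finset.prod_pow_eq_pow_sum,
        ← Finset.prod_mul_distrib, ← Finset.prod_mul_distrib]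
      refine Finset.prod_congr rfl fun i _ => ?_
      unfold cf
      rw [pow_mul]
  refine Finset.sum_bij_ne_zero (fun x _ _ =>
    (⟨(pw p fun i => (x i).1).natDegree, (pw p fun i => (x i).2.1).natDegree,
        pw p fun i => (x i).1, pw p fun i => (x i).2.1, pw p fun i => (x i).2.2⟩ :
        Σ _ : ℕ, Σ _ : ℕ, Σ _ : K[X], Σ _ : K[X], K[X])) ?_ ?_ ?_ ?_
  · intro x hx hx0
    obtain ⟨g1, g2⟩ := hgood x hx0
    exact (hval x (Fintype.mem_piFinset.1 hx) g1 g2).1
  · intro x hx hx0 y hy hy0 hxy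
    funext i
    have k1 : (pw p fun i => (x i).1) = (pw p fun i => (y i).1) :=
      congrArg (fun z : (Σ _ : ℕ, Σ _ : ℕ, Σ _ : K[X], Σ _ : K[X], K[X]) => z.2.2.1) hxy
    have k2 : (pw p fun i => (x i).2.1) = (pw p fun i => (y i).2.1) :=
      congrArg (fun z : (Σ _ : ℕ, Σ _ : ℕ, Σ _ : K[X], Σ _ : K[X], K[X]) => z.2.2.2.1) hxy
    have k3 : (pw p fun i => (x i).2.2) = (pw p fun i => (y i).2.2) :=
      congrArg (fun z : (Σ _ : ℕ, Σ _ : ℕ, Σ _ : K[X], Σ _ : K[X], K[X]) => z.2.2.2.2) hxy
    have c1 : (normalizedFactors (pw p fun i => (x i).1)).count (p i) =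
        (normalizedFactors (pw p fun i => (y i).1)).count (p i) := by rw [k1]
    have c2 : (normalizedFactors (pw p fun i => (x i).2.1)).count (p i) =
        (normalizedFactors (pw p fun i => (y i).2.1)).count (p i) := by rw [k2]
    have c3 : (normalizedFactors (pw p fun i => (x i).2.2)).count (p i) =
        (normalizedFactors (pw p fun i => (y i).2.2)).count (p i) := by rw [k3]
    rw [count_pw p hp hinj, count_pw p hp hinj] at c1 c2 c3
    exact Tr_ext c1 c2 c3
  · rintro ⟨l, i, b, g, g'⟩ hz hz0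
    unfold ZZ at hz
    rw [Finset.mem_sigma, Finset.mem_sigma, Finset.mem_sigma, Finset.mem_sigma,
      Finset.mem_range, Finset.mem_range, Finset.mem_filter, mem_mon, mem_mon, mem_mon] at hz
    obtain ⟨hl, hi, ⟨⟨hb1, hb2⟩, hb3⟩, ⟨hg1, hg2⟩, hg'1, hg'2⟩ := hz
    simp only at hl hi hb1 hb2 hb3 hg1 hg2 hg'1 hg'2
    have hdvd : g ^ 2 * b ∣ M := by
      by_contra hcon
      apply hz0
      unfold GG
      simp only
      rw [if_neg hcon]
    have hSG : SG s b g g' ≠ 0 := by
      intro hcon
      apply hz0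
      unfold GG
      simp only
      rw [if_pos hdvd, hcon, mul_zero]
    have hle : ∀ Q, (normalizedFactors g').count Q ≤ 3 * (normalizedFactors g).count Q := by
      intro Q
      by_contra hcon
      apply hSG
      unfold SG
      have hQ : Q ∈ (normalizedFactors (b * g * g')).toFinset := by
        rw [Multiset.mem_toFinset, normalizedFactors_mul (hb1.mul hg1).ne_zero hg'1.ne_zero,
          Multiset.mem_add]
        right
        rw [← Multiset.count_pos]
        omega
      exact Finset.prod_eq_zero hQ (hE.2.2.1 Q _ _ _ (by omega))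
    have hcnt : ∀ Q, 2 * (normalizedFactors g).count Q + (normalizedFactors b).count Q ≤
        (normalizedFactors M).count Q := by
      intro Q
      have h1 := hdvd
      rw [dvd_iff_normalizedFactors_le_normalizedFactors ((hg1.pow 2).mul hb1).ne_zero
        hM.ne_zero, normalizedFactors_mul (hg1.pow 2).ne_zero hb1.ne_zero,
        normalizedFactors_pow, Multiset.le_iff_count] at h1
      have h2 := h1 Q
      rw [Multiset.count_add, Multiset.count_nsmul] at h2
      exact h2
    have hb1' : ∀ Q, (normalizedFactors b).count Q ≤ 1 := by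
      rw [← Multiset.nodup_iff_count_le_one]
      exact (squarefree_iff_nodup_normalizedFactors hb1.ne_zero).1 hb3
    have eb : b = pw p fun i => (normalizedFactors b).count (p i) := by
      refine eq_pw p hp hinj hb1 fun Q hQ => hrange Q ?_
      rw [← Multiset.count_pos] at hQ ⊢
      have := hcnt Q
      omega
    have eg : g = pw p fun i => (normalizedFactors g).count (p i) := by
      refine eq_pw p hp hinj hg1 fun Q hQ => hrange Q ?_
      rw [← Multiset.count_pos] at hQ ⊢
      have := hcnt Q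
      omega
    have eg' : g' = pw p fun i => (normalizedFactors g').count (p i) := by
      refine eq_pw p hp hinj hg'1 fun Q hQ => hrange Q ?_
      rw [← Multiset.count_pos] at hQ ⊢
      have := hcnt Q
      have := hle Q
      omega
    obtain ⟨x, hxdef⟩ : ∃ x : {P // P ∈ S} → Tr, x = fun i =>
        ⟨(normalizedFactors b).count (p i), (normalizedFactors g).count (p i),
          (normalizedFactors g').count (p i)⟩ := ⟨_, rfl⟩
    have x1 : (fun i => (x i).1) = fun i => (normalizedFactors b).count (p i) := by rw [hxdef]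
    have x2 : (fun i => (x i).2.1) = fun i => (normalizedFactors g).count (p i) := by rw [hxdef]
    have x3 : (fun i => (x i).2.2) = fun i => (normalizedFactors g').count (p i) := by rw [hxdef]
    have hxT : ∀ i, x i ∈ TT (m i) := by
      intro i
      rw [mem_TT, hxdef]
      have h1 := hb1' (p i)
      have h2 := hcnt (p i)
      have h3 := hle (p i)
      have h4 : m i = (normalizedFactors M).count (p i) := rfl
      simp only
      refine ⟨by omega, by omega, by omega⟩
    have hx1 : ∀ i, 2 * (x i).2.1 + (x i).1 ≤ m i := by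
      intro i
      rw [hxdef]
      exact hcnt (p i)
    have eb' : (pw p fun i => (x i).1) = b := by rw [x1, ← eb]
    have egg : (pw p fun i => (x i).2.1) = g := by rw [x2, ← eg]
    have egg' : (pw p fun i => (x i).2.2) = g' := by rw [x3, ← eg']
    have hxk : ∑ i, (p i).natDegree * ((x i).2.1 + (x i).2.2 + (x i).1) = k := by
      have d1 := deg_pw p hp fun i => (x i).1
      have d2 := deg_pw p hp fun i => (x i).2.1
      have d3 := deg_pw p hp fun i => (x i).2.2
      rw [eb', hb2] at d1
      rw [egg, hg2] at d2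
      rw [egg', hg'2] at d3
      have h1 : ∑ i, (p i).natDegree * ((x i).2.1 + (x i).2.2 + (x i).1) =
          ∑ i, (p i).natDegree * (x i).2.1 + ∑ i, (p i).natDegree * (x i).2.2 +
            ∑ i, (p i).natDegree * (x i).1 := by
        rw [← Finset.sum_add_distrib, ← Finset.sum_add_distrib]
        refine Finset.sum_congr rfl fun i _ => ?_
        ring
      rw [h1, ← d1, ← d2, ← d3]
      omega
    have hv := hval x hxT hx1 hxk
    have hΨ : (⟨(pw p fun i => (x i).1).natDegree, (pw p fun i => (x i).2.1).natDegree,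
        pw p fun i => (x i).1, pw p fun i => (x i).2.1, pw p fun i => (x i).2.2⟩ :
        Σ _ : ℕ, Σ _ : ℕ, Σ _ : K[X], Σ _ : K[X], K[X]) = ⟨l, i, b, g, g'⟩ := by
      rw [eb', egg, egg', hb2, hg2]
    refine ⟨x, Fintype.mem_piFinset.2 hxT, ?_, hΨ⟩
    rw [hv.2, hΨ]
    exact hz0
  · intro x hx hx0
    obtain ⟨g1, g2⟩ := hgood x hx0
    exact (hval x (Fintype.mem_piFinset.1 hx) g1 g2).2

end main

end Pool.Agent.H79.EX
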