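import Pool.Agent.H664.EX.Stm
import Pool.Agent.H664.FH.Ana

/-! JOB LIM of project EX (helper664): zeros of holomorphic functions with a tie of exponential
growth rates (Montel). -/

set_option autoImplicit false

namespace Pool.Agent.H79.EX

open Filter Topology Metric Pool.Agent.H664.FH Pool.Agent.H664.EX

theorem lim : S_lim := by
  intro ω p₁ p₂ s₁ s₂ r ρ B h hρ hb1 hb2 hB h1 h2 h12
  by_contra hcon
  push Not at hcon
  have hex : ∀ j : ℕ, ∃ (R : ℝ) (F : ℂ → ℂ), (j : ℝ) + 1 ≤ R ∧ DifferentiableOn ℂ F (ball ω r) ∧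
      (∀ s ∈ ball ω r, ‖F s‖ ≤ Real.exp (R * (h s + 1 / ((j : ℝ) + 1)))) ∧
      (∃ s ∈ closedBall p₁ (ρ / 2), Real.exp (R * (h s - 1 / ((j : ℝ) + 1))) ≤ ‖F s‖) ∧
      (∃ s ∈ closedBall p₂ (ρ / 2), Real.exp (R * (h s - 1 / ((j : ℝ) + 1))) ≤ ‖F s‖) ∧
      ∀ s ∈ ball ω r, F s ≠ 0 := by
    intro j
    obtain ⟨R, F, a1, a2, a3, a4, a5, a6⟩ := hcon (1 / ((j : ℝ) + 1)) ((j : ℝ) + 1) (by positivity)
    exact ⟨R, F, a1, a2, a3, a4, a5, a6⟩
  choose R F hR hFd hFb hF1 hF2 hF0 using hex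
  choose t ht1 ht2 using hF1
  choose t' ht1' ht2' using hF2
  have hp1 : p₁ ∈ ball ω r := hb1 (mem_ball_self hρ)
  have hRpos : ∀ j, 0 < R j := fun j => lt_of_lt_of_le (by positivity) (hR j)
  have hlog : ∀ j, ∃ L : ℂ → ℂ, DifferentiableOn ℂ L (ball ω r) ∧
      (∀ u ∈ ball ω r, Complex.exp (L u) = F j u) := fun j => by
    obtain ⟨L, hL1, hL2, -⟩ := log_conv isOpen_ball (convex_ball ω r) hp1 (hFd j) (hF0 j)
    exact ⟨L, hL1, hL2⟩
  choose L hLd hLe using hlog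
  set G : ℕ → ℂ → ℂ := fun j w => Complex.exp (L j w / (R j : ℂ)) with hG
  have hGn : ∀ j w, ‖G j w‖ = Real.exp ((L j w).re / R j) := fun j w => by
    rw [hG]
    simp only
    rw [Complex.norm_exp, Complex.div_ofReal_re]
  have hGd : ∀ j, DifferentiableOn ℂ (G j) (ball ω r) := fun j => by
    rw [hG]
    exact ((hLd j).div_const _).cexp
  have hFn : ∀ j, ∀ w ∈ ball ω r, ‖F j w‖ = Real.exp ((L j w).re) := fun j w hw => by
    rw [← hLe j w hw, Complex.norm_exp]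
  have hup : ∀ j, ∀ w ∈ ball ω r, ‖G j w‖ ≤ Real.exp (h w + 1 / ((j : ℝ) + 1)) := by
    intro j w hw
    rw [hGn, Real.exp_le_exp, div_le_iff₀ (hRpos j), mul_comm]
    have := hFb j w hw
    rwa [hFn j w hw, Real.exp_le_exp] at this
  have hlow : ∀ j, ∀ w ∈ ball ω r, Real.exp (R j * (h w - 1 / ((j : ℝ) + 1))) ≤ ‖F j w‖ →
      Real.exp (h w - 1 / ((j : ℝ) + 1)) ≤ ‖G j w‖ := by
    intro j w hw hh
    rw [hGn, Real.exp_le_exp, le_div_iff₀ (hRpos j), mul_comm]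
    rwa [hFn j w hw, Real.exp_le_exp] at hh
  -- the ultrafilter
  set U : Ultrafilter ℕ := hyperfilter ℕ with hU
  have hUle : (U : Filter ℕ) ≤ atTop := by
    rw [hU, ← Nat.cofinite_eq_atTop]
    exact hyperfilter_le_cofinite
  have hδ : Tendsto (fun j : ℕ => 1 / ((j : ℝ) + 1)) (U : Filter ℕ) (𝓝 0) :=
    tendsto_one_div_add_atTop_nhds_zero_nat.mono_left hUle
  have hδ1 : ∀ j : ℕ, 1 / ((j : ℝ) + 1) ≤ 1 := fun j => by
    rw [div_le_one (by positivity)]
    have : (0 : ℝ) ≤ j := Nat.cast_nonneg j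
    linarith
  have hGb : ∀ j, ∀ w ∈ ball ω r, ‖G j w‖ ≤ Real.exp (B + 1) := by
    intro j w hw
    refine (hup j w hw).trans (Real.exp_le_exp.2 (add_le_add (hB w hw) (hδ1 j)))
  have hlimG : ∀ w : ℂ, ∃ a : ℂ, w ∈ ball ω r → Tendsto (fun j => G j w) (U : Filter ℕ) (𝓝 a) := by
    intro w
    by_cases hw : w ∈ ball ω r
    · obtain ⟨a, ha⟩ := ulim (U := U) (f := fun j => G j w) (C := Real.exp (B + 1))
        (Eventually.of_forall fun j => hGb j w hw)
      exact ⟨a, fun _ => ha⟩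
    · exact ⟨0, fun h => absurd h hw⟩
  choose g hg using hlimG
  obtain ⟨hlu, hgd⟩ := mon (U := (U : Filter ℕ)) (f := G) (g := g) (c := ω) (r := r)
    (C := Real.exp (B + 1))
    (Eventually.of_forall fun j => ⟨hGd j, hGb j⟩) (fun z hz => hg z hz)
  -- upper bound for g
  have hgup : ∀ w ∈ ball ω r, ‖g w‖ ≤ Real.exp (h w) := by
    intro w hw
    have e1 : Tendsto (fun j : ℕ => Real.exp (h w + 1 / ((j : ℝ) + 1))) (U : Filter ℕ)
        (𝓝 (Real.exp (h w + 0))) :=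
      (Real.continuous_exp.tendsto _).comp (hδ.const_add (h w))
    rw [add_zero] at e1
    exact le_of_tendsto_of_tendsto (hg w hw).norm e1 (Eventually.of_forall fun j => hup j w hw)
  -- lower bound at limit points
  have key : ∀ (p s : ℂ) (τ : ℕ → ℂ), ball p ρ ⊆ ball ω r → (∀ z ∈ ball p ρ, h z = (s * z).re) →
      (∀ j, τ j ∈ closedBall p (ρ / 2)) →
      (∀ j, Real.exp (R j * (h (τ j) - 1 / ((j : ℝ) + 1))) ≤ ‖F j (τ j)‖) →
      ∃ z ∈ ball p ρ, Real.exp ((s * z).re) ≤ ‖g z‖ := by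
    intro p s τ hb hh hτ hτ2
    have hsub : closedBall p (ρ / 2) ⊆ ball p ρ := closedBall_subset_ball (by linarith)
    have hmem : closedBall p (ρ / 2) ∈ U.map τ := by
      show τ ⁻¹' closedBall p (ρ / 2) ∈ U
      have : τ ⁻¹' closedBall p (ρ / 2) = Set.univ := by
        ext j; simp only [Set.mem_preimage, Set.mem_univ, iff_true]; exact hτ j
      rw [this]; exact Filter.univ_mem
    obtain ⟨z, hz, hzl⟩ := (isCompact_closedBall p (ρ / 2)).ultrafilter_le_nhds (U.map τ)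
      (le_principal_iff.2 hmem)
    have hzl' : Tendsto τ (U : Filter ℕ) (𝓝 z) := hzl
    have hzb : z ∈ ball p ρ := hsub hz
    have hzB : z ∈ ball ω r := hb hzb
    have hτB : ∀ j, τ j ∈ ball ω r := fun j => hb (hsub (hτ j))
    have hGt : Tendsto (fun j => G j (τ j)) (U : Filter ℕ) (𝓝 (g z)) := by
      refine hlu.tendsto_comp (hgd.continuousOn z hzB) hzB ?_
      exact tendsto_nhdsWithin_iff.2 ⟨hzl', Eventually.of_forall hτB⟩
    have hlt : Tendsto (fun j => Real.exp ((s * τ j).re - 1 / ((j : ℝ) + 1))) (U : Filter ℕ)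
        (𝓝 (Real.exp ((s * z).re - 0))) := by
      refine (Real.continuous_exp.tendsto _).comp (Tendsto.sub ?_ hδ)
      exact (Complex.continuous_re.tendsto _).comp (hzl'.const_mul s)
    rw [sub_zero] at hlt
    refine ⟨z, hzb, le_of_tendsto_of_tendsto hlt hGt.norm (Eventually.of_forall fun j => ?_)⟩
    have := hlow j (τ j) (hτB j) (hτ2 j)
    rwa [hh (τ j) (hsub (hτ j))] at this
  obtain ⟨z, hz, hzg⟩ := key p₁ s₁ t hb1 h1 ht1 ht2
  obtain ⟨z', hz', hzg'⟩ := key p₂ s₂ t' hb2 h2 ht1' ht2'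
  -- maximum principle on `ball p₁ ρ`
  set K : ℂ → ℂ := fun w => g w * Complex.exp (-(s₁ * w)) with hK
  have hKd : DifferentiableOn ℂ K (ball ω r) := by
    refine hgd.mul ?_
    fun_prop
  have hKn : ∀ w, ‖K w‖ = ‖g w‖ * Real.exp (-(s₁ * w).re) := fun w => by
    rw [hK]
    simp only
    rw [norm_mul, Complex.norm_exp, Complex.neg_re]
  have hK1 : ∀ w ∈ ball p₁ ρ, ‖K w‖ ≤ 1 := by
    intro w hw
    rw [hKn]
    have := hgup w (hb1 hw)
    rw [h1 w hw] at this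
    calc ‖g w‖ * Real.exp (-(s₁ * w).re) ≤ Real.exp ((s₁ * w).re) * Real.exp (-(s₁ * w).re) := by
          gcongr
      _ = 1 := by rw [← Real.exp_add, add_neg_cancel, Real.exp_zero]
  have hKz : 1 ≤ ‖K z‖ := by
    rw [hKn]
    calc (1 : ℝ) = Real.exp ((s₁ * z).re) * Real.exp (-(s₁ * z).re) := by
          rw [← Real.exp_add, add_neg_cancel, Real.exp_zero]
      _ ≤ _ := by gcongr
  have hmax : IsMaxOn (norm ∘ K) (ball p₁ ρ) z := by
    intro w hw
    show ‖K w‖ ≤ ‖K z‖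
    exact (hK1 w hw).trans hKz
  have heq := Complex.eqOn_of_isPreconnected_of_isMaxOn_norm (convex_ball p₁ ρ).isPreconnected
    isOpen_ball (hKd.mono hb1) hz hmax
  have hAn : AnalyticOnNhd ℂ K (ball ω r) := hKd.analyticOnNhd isOpen_ball
  have heq2 : Set.EqOn K (Function.const ℂ (K z)) (ball ω r) := by
    refine hAn.eqOn_of_preconnected_of_eventuallyEq analyticOnNhd_const
      (convex_ball ω r).isPreconnected hp1 ?_
    filter_upwards [ball_mem_nhds p₁ hρ] with w hw using heq hw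
  have hz'B : z' ∈ ball ω r := hb2 hz'
  have e1 : ‖K z'‖ = ‖K z‖ := by
    have := heq2 hz'B
    rw [this]; rfl
  have e2 : ‖K z‖ ≤ 1 := hK1 z hz
  rw [← e1, hKn] at e2
  have e3 : Real.exp ((s₁ * z').re) < Real.exp ((s₂ * z').re) := Real.exp_lt_exp.2 (h12 z' hz')
  have e4 : 1 < ‖g z'‖ * Real.exp (-(s₁ * z').re) := by
    calc (1 : ℝ) = Real.exp ((s₁ * z').re) * Real.exp (-(s₁ * z').re) := by
          rw [← Real.exp_add, add_neg_cancel, Real.exp_zero]
      _ < Real.exp ((s₂ * z').re) * Real.exp (-(s₁ * z').re) := by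
          gcongr
      _ ≤ _ := by gcongr
  linarith

end Pool.Agent.H79.EX
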