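import Pool.Agent.H664.EX.Stm
import Pool.Agent.H356.EX.AxK

/-! JOB OV1 of project EX (helper664), algebraic part: derivations of an algebraic function field of
one variable. -/

set_option autoImplicit false

namespace Pool.Agent.H79.EX

open Filter Topology Metric Polynomial Pool.Agent.H664.EX Pool.Agent.Q72.EG

variable {K : Type} [Field K] [Algebra ℂ K]

/-- the generator of `ℂ(z)` -/
abbrev gz (z : K) : IntermediateField.adjoin ℂ ({z} : Set K) :=
  ⟨z, IntermediateField.subset_adjoin ℂ {z} rfl⟩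

/-- `K` is algebraic over `ℂ[X]`, and formally etale -/
theorem alg_poly {z : K} (hz : Transcendental ℂ z) (hal : ∀ f : K, Al {z} f) :
    ∃ _ : Algebra ℂ[X] K, IsScalarTower ℂ ℂ[X] K ∧ (∀ p : ℂ[X], algebraMap ℂ[X] K p = aeval z p) ∧
      Algebra.FormallyEtale ℂ[X] K ∧ ∀ f : K, IsAlgebraic ℂ[X] f := by
  let L := IntermediateField.adjoin ℂ ({z} : Set K)
  let _ : Algebra ℂ[X] K := (aeval z : ℂ[X] →ₐ[ℂ] K).toAlgebra
  let _ : Algebra ℂ[X] L := (aeval (gz z) : ℂ[X] →ₐ[ℂ] L).toAlgebra
  have eL : ∀ p : ℂ[X], ((algebraMap ℂ[X] L p : L) : K) = aeval z p := by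
    intro p
    change ((aeval (gz z) p : L) : K) = aeval z p
    have := Polynomial.aeval_algebraMap_apply K (gz z) p
    rw [← IntermediateField.algebraMap_apply, ← this]
    rfl
  have t1 : IsScalarTower ℂ ℂ[X] K := IsScalarTower.of_algebraMap_eq fun c => by
    change _ = aeval z (C c)
    rw [aeval_C]
  have t2 : IsScalarTower ℂ[X] L K := IsScalarTower.of_algebraMap_eq fun p => by
    change aeval z p = _
    rw [IntermediateField.algebraMap_apply, eL]
  have hinj : Function.Injective (algebraMap ℂ[X] L) := by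
    intro p q hpq
    have h1 : aeval z p = aeval z q := by rw [← eL, ← eL, hpq]
    exact (transcendental_iff_injective.1 hz) h1
  have _ : FaithfulSMul ℂ[X] L := (faithfulSMul_iff_algebraMap_injective ℂ[X] L).2 hinj
  have hfr : IsFractionRing ℂ[X] L := by
    refine IsFractionRing.of_field ℂ[X] L ?_
    rintro ⟨x, hx⟩
    obtain ⟨r, s, hrs⟩ := IntermediateField.mem_adjoin_simple_iff ℂ x |>.1 hx
    refine ⟨r, s, Subtype.ext ?_⟩
    change x = _
    rw [hrs, ← eL, ← eL]
    rfl
  have hLK : Algebra.IsAlgebraic L K := ⟨hal⟩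
  have _ : CharZero L := charZero_of_injective_algebraMap (algebraMap ℂ L).injective
  have _ : Algebra.FormallyEtale ℂ[X] L :=
    Algebra.FormallyEtale.of_isLocalization (nonZeroDivisors ℂ[X])
  have _ : Algebra.FormallyEtale L K := Algebra.FormallyEtale.of_isSeparable L K
  refine ⟨inferInstance, t1, fun p => rfl, Algebra.FormallyEtale.comp ℂ[X] L K, fun f => ?_⟩
  exact (IsFractionRing.isAlgebraic_iff ℂ[X] L K).2 (hal f)

theorem exists_der {z : K} (hz : Transcendental ℂ z) (hal : ∀ f : K, Al {z} f) :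
    ∃ D : Derivation ℂ K K, D z = 1 := by
  obtain ⟨_, _, h1, _, -⟩ := alg_poly hz hal
  obtain ⟨D, hD⟩ := Pool.Agent.H356.EX.ext_der (R := ℂ) (S := ℂ[X]) (T := K)
    (Polynomial.derivative' : Derivation ℂ ℂ[X] ℂ[X])
  refine ⟨D, ?_⟩
  have := hD X
  rw [h1, aeval_X] at this
  rw [this]
  simp

theorem mem_C {f : K} (hf : IsAlgebraic ℂ f) : ∃ c : ℂ, f = algebraMap ℂ K c := by
  obtain ⟨c, hc⟩ := minpoly.mem_range_of_degree_eq_one ℂ f
    (IsAlgClosed.degree_eq_one_of_irreducible ℂ (minpoly.irreducible hf.isIntegral))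
  exact ⟨c, hc.symm⟩

/-- the exchange property -/
theorem exch {z f : K} (hal : ∀ g : K, Al {z} g) (hz : Transcendental ℂ z)
    (hf : Transcendental ℂ f) (g : K) : Al {f} g := by
  have hzi : AlgebraicIndependent ℂ (fun _ : Unit => z) := by
    rwa [algebraicIndependent_unique_type_iff]
  have hfi : AlgebraicIndependent ℂ (fun _ : Unit => f) := by
    rwa [algebraicIndependent_unique_type_iff]
  have hr : Set.range (fun _ : Unit => z) = {z} := by ext; simp [eq_comm]
  have hr' : Set.range (fun _ : Unit => f) = {f} := by ext; simp [eq_comm]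
  obtain ⟨_, _, h1, _, h5⟩ := alg_poly hz hal
  have hb : IsTranscendenceBasis ℂ (fun _ : Unit => z) := by
    rw [isTranscendenceBasis_iff_algebraicIndependent_isAlgebraic]
    refine ⟨hzi, ⟨fun g => ?_⟩⟩
    rw [hr]
    obtain ⟨p, hp, hpg⟩ := h5 g
    let φ : ℂ[X] →+* Algebra.adjoin ℂ ({z} : Set K) :=
      ((aeval (⟨z, Algebra.self_mem_adjoin_singleton ℂ z⟩ : Algebra.adjoin ℂ ({z} : Set K))) :
        ℂ[X] →ₐ[ℂ] _).toRingHom
    have hφ : ∀ q : ℂ[X], ((φ q : Algebra.adjoin ℂ ({z} : Set K)) : K) = aeval z q := by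
      intro q
      change ((aeval _ q : Algebra.adjoin ℂ ({z} : Set K)) : K) = aeval z q
      have := Polynomial.aeval_algebraMap_apply K
        (⟨z, Algebra.self_mem_adjoin_singleton ℂ z⟩ : Algebra.adjoin ℂ ({z} : Set K)) q
      exact this.symm
    refine ⟨p.map φ, ?_, ?_⟩
    · have hinj : Function.Injective φ := by
        intro a b hab
        apply (transcendental_iff_injective.1 hz)
        rw [← hφ, ← hφ, hab]
      exact (Polynomial.map_ne_zero_iff hinj).2 hp
    · rw [aeval_def, eval₂_map]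
      rw [aeval_def] at hpg
      have e : (algebraMap (Algebra.adjoin ℂ ({z} : Set K)) K).comp φ = algebraMap ℂ[X] K := by
        ext1
        · ext c
          change ((φ (C c) : Algebra.adjoin ℂ ({z} : Set K)) : K) = algebraMap ℂ[X] K (C c)
          rw [hφ, h1]
        · change ((φ X : Algebra.adjoin ℂ ({z} : Set K)) : K) = algebraMap ℂ[X] K X
          rw [hφ, h1]
      rw [e]
      exact hpg
  have hb2 : IsTranscendenceBasis ℂ (fun _ : Unit => f) := by
    refine hfi.isTranscendenceBasis_of_lift_trdeg_le_of_finite ?_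
    rw [← hb.lift_cardinalMk_eq_trdeg]
  have := hb2.isAlgebraic_field
  rw [hr'] at this
  exact this.isAlgebraic g

/-- a derivation which kills a field kills the algebraic elements -/
theorem der_alg (D : Derivation ℂ K K) {S : Set K} (hS : ∀ s ∈ S, D s = 0) {f : K}
    (hf : Al S f) : D f = 0 := by
  have h0 : ∀ a ∈ IntermediateField.adjoin ℂ S, D a = 0 := by
    intro a ha
    induction ha using IntermediateField.adjoin_induction with
    | mem a ha => exact hS a ha
    | algebraMap a => exact D.map_algebraMap a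
    | add a b _ _ ha hb => rw [map_add, ha, hb, add_zero]
    | inv a _ ha => rw [Derivation.leibniz_inv, ha, smul_zero]
    | mul a b _ _ ha hb => rw [Derivation.leibniz, ha, hb, smul_zero, smul_zero, add_zero]
  let D₁ : Derivation (IntermediateField.adjoin ℂ S) K K :=
    { toFun := D
      map_add' := fun a b => map_add _ _ _
      map_smul' := by
        intro c w
        change D ((c : K) * w) = (c : K) * D w
        rw [Derivation.leibniz, h0 c c.2, smul_zero, add_zero, smul_eq_mul]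
      map_one_eq_zero' := D.map_one_eq_zero
      leibniz' := fun a b => D.leibniz a b }
  have _ : CharZero (IntermediateField.adjoin ℂ S) :=
    charZero_of_injective_algebraMap (algebraMap ℂ _).injective
  have hint : IsIntegral (IntermediateField.adjoin ℂ S) f := hf.isIntegral
  have h1 := D₁.map_aeval (minpoly (IntermediateField.adjoin ℂ S) f) f
  rw [minpoly.aeval, map_zero] at h1
  have hsep : (minpoly (IntermediateField.adjoin ℂ S) f).Separable :=
    (minpoly.irreducible hint).separable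
  have h2 : Polynomial.aeval f (Polynomial.derivative (minpoly (IntermediateField.adjoin ℂ S) f))
      ≠ 0 := hsep.aeval_derivative_ne_zero (minpoly.aeval _ _)
  rw [smul_eq_mul] at h1
  exact (mul_eq_zero.1 h1.symm).resolve_left h2

/-- the constants of a nonzero derivation -/
theorem const_of_der {z : K} (hz : Transcendental ℂ z) (hal : ∀ f : K, Al {z} f)
    (D : Derivation ℂ K K) (hD : D z ≠ 0) {f : K} (hf : D f = 0) :
    ∃ c : ℂ, f = algebraMap ℂ K c := by
  by_cases h : IsAlgebraic ℂ f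
  · exact mem_C h
  · exfalso
    apply hD
    exact der_alg D (S := {f}) (by rintro s rfl; exact hf) (exch hal hz h z)

/-- Ax's theorem in one variable -/
theorem ax1 (h2 : S_axK) {z : K} (hal : ∀ f : K, Al {z} f) (D : Derivation ℂ K K) {x y : K}
    (hy : y ≠ 0) (h : D y = y * D x) : D x = 0 := by
  by_contra hx
  have := h2 K {z} D 1 1 ![x] ![y] ![z] (by
    intro f
    have := hal f
    simpa using this) Nat.one_pos (by intro i; fin_cases i; exact hy)
    (by intro i; fin_cases i; exact h) (by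
      intro q hq
      have h3 : (q 0 : K) * D x = 0 := by simpa using hq
      have h4 : (q 0 : K) = 0 := (mul_eq_zero.1 h3).resolve_right hx
      have _ : CharZero K := charZero_of_injective_algebraMap (algebraMap ℂ K).injective
      funext i
      fin_cases i
      exact_mod_cast h4) (by
      intro f
      have h5 := hal f
      have hle : IntermediateField.adjoin ℂ ({z} : Set K) ≤
          IntermediateField.adjoin ℂ ({c | D c = 0} ∪ Set.range ![z]) :=
        IntermediateField.adjoin.mono ℂ _ _ (by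
          rintro _ rfl
          exact Or.inr ⟨0, rfl⟩)
      let g : IntermediateField.adjoin ℂ ({z} : Set K) →+*
          IntermediateField.adjoin ℂ ({c | D c = 0} ∪ Set.range ![z]) :=
        (IntermediateField.inclusion hle).toRingHom
      obtain ⟨p, hp, hpf⟩ := h5
      refine ⟨p.map g, (Polynomial.map_ne_zero_iff g.injective).2 hp, ?_⟩
      rw [aeval_def, eval₂_map]
      exact hpf)
  omega

/-- the derivation along `z = 2πi κ + log y` -/
theorem exists_D (h2 : S_axK) {z y : K} (hz : Transcendental ℂ z) (hal : ∀ f : K, Al {z} f)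
    (hy : y ≠ 0) : ∃ D : Derivation ℂ K K, D z ≠ 0 ∧
      D y = y * (D z - algebraMap ℂ K (2 * Real.pi * Complex.I)) := by
  obtain ⟨d, hd⟩ := exists_der hz hal
  have hdy : d y ≠ y := by
    intro h
    have := ax1 h2 hal d (x := z) hy (by rw [h, hd, mul_one])
    rw [hd] at this
    exact one_ne_zero this
  have h1 : y - d y ≠ 0 := sub_ne_zero.2 (Ne.symm hdy)
  have hπ : algebraMap ℂ K (2 * Real.pi * Complex.I) ≠ 0 := by
    rw [Ne, map_eq_zero]
    exact Complex.two_pi_I_ne_zero
  set w : K := algebraMap ℂ K (2 * Real.pi * Complex.I) with hw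
  refine ⟨(w * y / (y - d y)) • d, ?_, ?_⟩
  · rw [Derivation.smul_apply, hd, smul_eq_mul, mul_one]
    exact div_ne_zero (mul_ne_zero hπ hy) h1
  · rw [Derivation.smul_apply, Derivation.smul_apply, hd, smul_eq_mul, smul_eq_mul, mul_one]
    field_simp
    ring

/-- the end of the algebraic part: `δ = D θ - D r / r` is a nonzero constant if some iterated
derivative vanishes -/
theorem delta_const (h2 : S_axK) {z θ y : K} (hz : Transcendental ℂ z) (hal : ∀ f : K, Al {z} f)
    (hy : y ≠ 0) (hy' : ∀ c : ℂ, y ≠ algebraMap ℂ K c) (hθ : ∀ c : ℂ, θ ≠ algebraMap ℂ K c)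
    (D : Derivation ℂ K K) (hDz : D z ≠ 0)
    (hDy : D y = y * (D z - algebraMap ℂ K (2 * Real.pi * Complex.I))) {r : K} (hr : r ≠ 0)
    {n : ℕ} (hn : (fun f => D f)^[n] (D θ - D r / r) = 0) :
    ∃ c : ℂ, c ≠ 0 ∧ D θ - D r / r = algebraMap ℂ K c := by
  classical
  have hex : ∃ n : ℕ, (fun f => D f)^[n] (D θ - D r / r) = 0 := ⟨n, hn⟩
  have hM := Nat.find_spec hex
  have hmin : ∀ m < Nat.find hex, (fun f => D f)^[m] (D θ - D r / r) ≠ 0 :=
    fun m hm => Nat.find_min hex hm
  generalize Nat.find hex = M at hM hmin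
  match M with
  | 0 =>
    exfalso
    simp only [Function.iterate_zero, id_eq] at hM
    have h3 : D r = r * D θ := by
      rw [sub_eq_zero] at hM
      rw [hM]
      field_simp
    have h4 := ax1 h2 hal D (x := θ) hr h3
    obtain ⟨c, hc⟩ := const_of_der hz hal D hDz h4
    exact hθ c hc
  | 1 =>
    have h3 : D (D θ - D r / r) = 0 := by simpa using hM
    obtain ⟨c, hc⟩ := const_of_der hz hal D hDz h3
    refine ⟨c, ?_, hc⟩
    rintro rfl
    rw [map_zero] at hc
    exact hmin 0 Nat.one_pos (by simpa using hc)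
  | (m + 2) =>
    exfalso
    set η : K := (fun f => D f)^[m] (D θ - D r / r) with hη
    have e1 : D (D η) = 0 := by
      have := hM
      rw [Function.iterate_succ_apply', Function.iterate_succ_apply'] at this
      exact this
    have e2 : D η ≠ 0 := by
      have := hmin (m + 1) (by omega)
      rw [Function.iterate_succ_apply'] at this
      exact this
    obtain ⟨c, hc⟩ := const_of_der hz hal D hDz e1
    have hc0 : algebraMap ℂ K c ≠ 0 := by rw [← hc]; exact e2
    have hc1 : c ≠ 0 := fun h => hc0 (by rw [h, map_zero])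
    have e3 : D (z - (2 * Real.pi * Complex.I / c) • η)
        = D z - algebraMap ℂ K (2 * Real.pi * Complex.I) := by
      rw [map_sub, Derivation.map_smul, hc, Algebra.smul_def, ← map_mul, div_mul_cancel₀ _ hc1]
    have e4 := ax1 h2 hal D (x := z - (2 * Real.pi * Complex.I / c) • η) hy (by rw [e3, hDy])
    rw [e3] at e4
    rw [e4, mul_zero] at hDy
    obtain ⟨c', hc'⟩ := const_of_der hz hal D hDz hDy
    exact hy' c' hc'

/-- `δ` is not a rational multiple of `2πi` -/
theorem not_rat (h2 : S_axK) {z θ y : K} (hz : Transcendental ℂ z) (hal : ∀ f : K, Al {z} f)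
    (hy : y ≠ 0)
    (hm : ∀ m₁ m₂ : ℤ, (m₁ ≠ 0 ∨ m₂ ≠ 0) → ∀ c : ℂ, (m₁ : K) * z + m₂ * θ ≠ algebraMap ℂ K c)
    (D : Derivation ℂ K K) (hDz : D z ≠ 0)
    (hDy : D y = y * (D z - algebraMap ℂ K (2 * Real.pi * Complex.I))) {r : K} (hr : r ≠ 0)
    {c : ℂ} (hc : D θ - D r / r = algebraMap ℂ K c) {s p : ℤ} (hs : s ≠ 0)
    (hsp : (s : ℂ) * c = p * (2 * Real.pi * Complex.I)) : False := by
  set w : K := algebraMap ℂ K (2 * Real.pi * Complex.I) with hw
  have hsp' : (s : K) * algebraMap ℂ K c = (p : K) * w := by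
    have := congrArg (algebraMap ℂ K) hsp
    rw [map_mul, map_mul, map_intCast, map_intCast] at this
    exact this
  have e1 : D (r ^ s * y ^ (-p)) = (r ^ s * y ^ (-p)) * D ((((-p : ℤ) : K) * z + (s : K) * θ)) := by
    have a1 : D (r ^ s) = r ^ s * ((s : K) * (D r / r)) := by
      rw [Derivation.leibniz_zpow, zpow_sub_one₀ hr]
      rw [zsmul_eq_mul, smul_eq_mul]
      field_simp
    have a2 : D (y ^ (-p)) = y ^ (-p) * (((-p : ℤ) : K) * (D y / y)) := by
      rw [Derivation.leibniz_zpow, zpow_sub_one₀ hy]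
      rw [zsmul_eq_mul, smul_eq_mul]
      field_simp
    have a3 : D (((-p : ℤ) : K) * z + (s : K) * θ) = ((-p : ℤ) : K) * D z + (s : K) * D θ := by
      rw [map_add, Derivation.leibniz, Derivation.leibniz, Derivation.map_intCast,
        Derivation.map_intCast, smul_zero, smul_zero, add_zero, add_zero, smul_eq_mul, smul_eq_mul]
    rw [Derivation.leibniz, a1, a2, a3, smul_eq_mul, smul_eq_mul]
    have a4 : D y / y = D z - w := by rw [hDy]; field_simp
    have a5 : (s : K) * D θ = (s : K) * (D r / r) + (p : K) * w := by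
      rw [← hsp', ← hc]; ring
    rw [a4, a5]
    push_cast
    ring
  have hne : r ^ s * y ^ (-p) ≠ 0 := mul_ne_zero (zpow_ne_zero _ hr) (zpow_ne_zero _ hy)
  have e2 := ax1 h2 hal D hne e1
  obtain ⟨c', hc'⟩ := const_of_der hz hal D hDz e2
  exact hm (-p) s (Or.inr hs) c' hc'

/-! ### Growth -/

theorem poly_lower {a : ℂ[X]} (ha : a ≠ 0) : ∃ R m : ℝ, 0 < m ∧ ∀ w : ℂ, R ≤ ‖w‖ →
    m ≤ ‖a.eval w‖ := by
  rcases Nat.eq_zero_or_pos a.natDegree with h | h
  · rw [Polynomial.eq_C_of_natDegree_eq_zero h] at ha ⊢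
    refine ⟨0, ‖a.coeff 0‖, norm_pos_iff.2 (fun h0 => ha (by rw [h0, C_0])), fun w _ => ?_⟩
    rw [eval_C]
  · have h1 : Tendsto (fun w : ℂ => ‖a.eval w‖) (Filter.comap norm atTop) atTop :=
      Polynomial.tendsto_norm_atTop a (Polynomial.natDegree_pos_iff_degree_pos.1 h)
        tendsto_comap
    have h3 := h1.eventually (eventually_ge_atTop (1 : ℝ))
    rw [Filter.eventually_comap] at h3
    obtain ⟨R, hR⟩ := Filter.eventually_atTop.1 h3
    exact ⟨R, 1, one_pos, fun w hw => hR ‖w‖ hw w rfl⟩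

theorem poly_upper (a : ℂ[X]) : ∃ A : ℝ, 0 ≤ A ∧ ∀ w : ℂ, 1 ≤ ‖w‖ → ∀ d : ℕ, a.natDegree ≤ d →
    ‖a.eval w‖ ≤ A * ‖w‖ ^ d := by
  refine ⟨∑ i ∈ Finset.range (a.natDegree + 1), ‖a.coeff i‖,
    Finset.sum_nonneg fun _ _ => norm_nonneg _, fun w hw d hd => ?_⟩
  rw [Polynomial.eval_eq_sum_range, Finset.sum_mul]
  refine (norm_sum_le _ _).trans (Finset.sum_le_sum fun i hi => ?_)
  rw [norm_mul, norm_pow]
  have hi' : i ≤ d := (Nat.lt_succ_iff.1 (Finset.mem_range.1 hi)).trans hd
  gcongr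

theorem growth {z θ : K} (hz : Transcendental ℂ z) (hal : ∀ f : K, Al {z} f) :
    ∃ (A R : ℝ) (d : ℕ), 0 ≤ A ∧ ∀ z₀ θ₀ : ℂ, ![z₀, θ₀] ∈ Pt ![z, θ] → R ≤ ‖z₀‖ →
      ‖θ₀‖ ≤ A * ‖z₀‖ ^ d := by
  obtain ⟨_, _, h1, -, h5⟩ := alg_poly hz hal
  obtain ⟨p, hp, hpθ⟩ := h5 θ
  obtain ⟨R, m, hm, hlow⟩ := poly_lower (leadingCoeff_ne_zero.2 hp)
  choose A hA0 hA using fun i => poly_upper (p.coeff i)
  set d := (Finset.range (p.natDegree + 1)).sup fun i => (p.coeff i).natDegree with hd
  have hdi : ∀ i ∈ Finset.range (p.natDegree + 1), (p.coeff i).natDegree ≤ d := fun i hi =>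
    Finset.le_sup (f := fun i => (p.coeff i).natDegree) hi
  set n := p.natDegree with hn
  set B : ℝ := ∑ i ∈ Finset.range n, A i with hB
  have hB0 : 0 ≤ B := Finset.sum_nonneg fun i _ => hA0 i
  refine ⟨1 + B / m, max R 1, d, by positivity, fun z₀ θ₀ hpt hz₀ => ?_⟩
  have hz1 : 1 ≤ ‖z₀‖ := (le_max_right _ _).trans hz₀
  have hzR : R ≤ ‖z₀‖ := (le_max_left _ _).trans hz₀
  have hzd : 1 ≤ ‖z₀‖ ^ d := one_le_pow₀ hz1
  -- the relation at the point
  have hrel : ∑ i ∈ Finset.range (n + 1), (p.coeff i).eval z₀ * θ₀ ^ i = 0 := by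
    set G : MvPolynomial (Fin 2) ℂ := ∑ i ∈ Finset.range (n + 1),
      (Polynomial.aeval (MvPolynomial.X 0 : MvPolynomial (Fin 2) ℂ) (p.coeff i)) *
        (MvPolynomial.X 1) ^ i with hG
    have hG0 : MvPolynomial.aeval ![z, θ] G = 0 := by
      rw [hG, map_sum, ← hpθ, Polynomial.aeval_eq_sum_range]
      refine Finset.sum_congr rfl fun i _ => ?_
      rw [map_mul, map_pow, MvPolynomial.aeval_X, ← Polynomial.aeval_algHom_apply,
        MvPolynomial.aeval_X, Algebra.smul_def, h1]
      rfl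
    have h3 := hpt G hG0
    rw [hG, map_sum] at h3
    rw [← h3]
    refine Finset.sum_congr rfl fun i _ => ?_
    have e : MvPolynomial.eval ![z₀, θ₀] (Polynomial.aeval
        (MvPolynomial.X 0 : MvPolynomial (Fin 2) ℂ) (p.coeff i)) = (p.coeff i).eval z₀ := by
      have := Polynomial.aeval_algHom_apply (MvPolynomial.aeval (R := ℂ) ![z₀, θ₀])
        (MvPolynomial.X 0 : MvPolynomial (Fin 2) ℂ) (p.coeff i)
      rw [MvPolynomial.aeval_X, MvPolynomial.aeval_eq_eval] at this
      rw [← this, Polynomial.coe_aeval_eq_eval]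
      rfl
    rw [map_mul, map_pow, MvPolynomial.eval_X, e]
    rfl
  by_cases hθ1 : ‖θ₀‖ ≤ 1
  · calc ‖θ₀‖ ≤ 1 := hθ1
      _ ≤ 1 * ‖z₀‖ ^ d := by rw [one_mul]; exact hzd
      _ ≤ (1 + B / m) * ‖z₀‖ ^ d := by
        gcongr
        have : 0 ≤ B / m := by positivity
        linarith
  · push Not at hθ1
    rw [Finset.sum_range_succ] at hrel
    have h6 : ‖(p.coeff n).eval z₀ * θ₀ ^ n‖ ≤ (B * ‖z₀‖ ^ d) * ‖θ₀‖ ^ (n - 1) := by
      have : (p.coeff n).eval z₀ * θ₀ ^ n
          = -∑ i ∈ Finset.range n, (p.coeff i).eval z₀ * θ₀ ^ i := by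
        rw [eq_neg_iff_add_eq_zero, add_comm]
        exact hrel
      rw [this, norm_neg, hB, Finset.sum_mul, Finset.sum_mul]
      refine (norm_sum_le _ _).trans (Finset.sum_le_sum fun i hi => ?_)
      have hi' := Finset.mem_range.1 hi
      rw [norm_mul, norm_pow]
      have h7 := hA i z₀ hz1 d (hdi i (Finset.mem_range.2 (by omega)))
      have h8 : ‖θ₀‖ ^ i ≤ ‖θ₀‖ ^ (n - 1) := pow_le_pow_right₀ hθ1.le (by omega)
      have h9 : 0 ≤ A i * ‖z₀‖ ^ d := mul_nonneg (hA0 i) (by positivity)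
      exact mul_le_mul h7 h8 (by positivity) h9
    rw [norm_mul, norm_pow] at h6
    have h10 : m ≤ ‖(p.coeff n).eval z₀‖ := hlow z₀ hzR
    have hn1 : n ≠ 0 := by
      intro h0
      rw [h0] at hrel h10
      simp only [Finset.range_zero, Finset.sum_empty, pow_zero, mul_one, zero_add] at hrel
      rw [hrel, norm_zero] at h10
      linarith
    obtain ⟨k, hk⟩ := Nat.exists_eq_succ_of_ne_zero hn1
    rw [hk, Nat.succ_eq_add_one, Nat.add_sub_cancel, pow_succ] at h6
    have hpos : 0 < ‖θ₀‖ ^ k := by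
      have : 0 < ‖θ₀‖ := by linarith
      positivity
    have h11 : m * ‖θ₀‖ ≤ B * ‖z₀‖ ^ d := by
      refine le_of_mul_le_mul_right ?_ hpos
      rw [hk, Nat.succ_eq_add_one] at h10
      calc m * ‖θ₀‖ * ‖θ₀‖ ^ k = m * (‖θ₀‖ ^ k * ‖θ₀‖) := by ring
        _ ≤ ‖(p.coeff (k + 1)).eval z₀‖ * (‖θ₀‖ ^ k * ‖θ₀‖) := by gcongr
        _ ≤ _ := h6
    calc ‖θ₀‖ ≤ B / m * ‖z₀‖ ^ d := by
          rw [div_mul_eq_mul_div, le_div_iff₀ hm, mul_comm]
          exact h11
      _ ≤ (1 + B / m) * ‖z₀‖ ^ d := by gcongr; linarith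

end Pool.Agent.H79.EX
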