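import Pool.Agent.H79.EX.OvA
import Pool.Agent.H79.EX.OvB

/-! JOB OV1 of project EX (helper664): overdetermined systems in one variable. -/

set_option autoImplicit false

namespace Pool.Agent.H79.EX

open Filter Topology Metric Polynomial Pool.Agent.H664.EX Pool.Agent.Q72.EG Pool.Agent.H664.FH

/-- `S_ray` with the additional clause `‖X κ - 2πi κ‖ ≤ T` -/
def S_rayX : Prop := ∀ (K : Type) [Field K] [Algebra ℂ K] (z y : K) (D : Derivation ℂ K K),
  Transcendental ℂ z → (∀ f : K, Al {z} f) → y ≠ 0 →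
  D y = y * (D z - algebraMap ℂ K (2 * Real.pi * Complex.I)) → ∀ Q : Finset K,
  ∃ C T₀ : ℝ, ∀ T : ℝ, T₀ ≤ T → ∃ (X : ℂ → ℂ) (q : K → ℂ → ℂ),
    DifferentiableOn ℂ X (ball (T : ℂ) (T / 4)) ∧
    (∀ k ∈ Q, DifferentiableOn ℂ (q k) (ball (T : ℂ) (T / 4))) ∧
    ∀ κ ∈ ball (T : ℂ) (T / 4),
      Sum.elim ![X κ, Complex.exp (X κ - 2 * Real.pi * Complex.I * κ)] (fun k : Q => q k κ) ∈
        Pt (Sum.elim ![z, y] (fun k : Q => (k : K))) ∧
      (∀ k ∈ Q, ‖q k κ‖ ≤ T ^ C ∧ (k ≠ 0 → T ^ (-C) ≤ ‖q k κ‖)) ∧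
      (∀ k ∈ Q, D k ∈ Q → deriv (q k) κ = q (D k) κ) ∧
      ‖X κ - 2 * Real.pi * Complex.I * κ‖ ≤ T

theorem pt_comp {K σ τ : Type} [Field K] [Algebra ℂ K] {ξ : τ → K} {p : τ → ℂ} (h : p ∈ Pt ξ)
    (m : σ → τ) : p ∘ m ∈ Pt (ξ ∘ m) := by
  intro G hG
  have h1 := h (MvPolynomial.rename m G) (by rw [MvPolynomial.aeval_rename]; exact hG)
  rwa [MvPolynomial.eval_rename] at h1

section closed

variable {K : Type} [Field K] [Algebra ℂ K]

/-- the variable of `k` -/
noncomputable def vr (Q : Finset K) (k : K) : MvPolynomial (Fin 2 ⊕ Q) ℂ := by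
  classical
  exact if hk : k ∈ Q then MvPolynomial.X (Sum.inr ⟨k, hk⟩) else 0

theorem aeval_vr {Q : Finset K} {k : K} (hk : k ∈ Q) (z y : K) :
    MvPolynomial.aeval (Sum.elim ![z, y] (fun k : Q => (k : K))) (vr Q k) = k := by
  rw [vr, dif_pos hk, MvPolynomial.aeval_X]
  rfl

theorem eval_vr {Q : Finset K} {k : K} (hk : k ∈ Q) (a : Fin 2 → ℂ) (q : K → ℂ) :
    MvPolynomial.eval (Sum.elim a (fun k : Q => q k)) (vr Q k) = q k := by
  rw [vr, dif_pos hk, MvPolynomial.eval_X]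
  rfl

end closed

theorem exp_log_mul {T C : ℝ} (hT : 0 < T) : T ^ C = Real.exp (C * Real.log T) := by
  rw [Real.rpow_def_of_pos hT, mul_comm]

theorem ov1c (h1 : S_rayX) (h2 : S_axK) (K : Type) [Field K] [Algebra ℂ K] [IsAlgClosed K]
    (z θ y : K) (hz : Transcendental ℂ z)
    (hal : ∀ f : K, Al {z} f) (hy : y ≠ 0) (hy' : ∀ c : ℂ, y ≠ algebraMap ℂ K c)
    (hm : ∀ m₁ m₂ : ℤ, (m₁ ≠ 0 ∨ m₂ ≠ 0) → ∀ c : ℂ, (m₁ : K) * z + m₂ * θ ≠ algebraMap ℂ K c)
    (F : Finset ℕ) (c : ℕ → K) (Q : Finset K) (hF : F.Nonempty)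
    (hc : ∀ b ∈ F, c b ≠ 0 ∧ c b ∈ Q) :
    ∃ (z₀ θ₀ : ℂ) (q : K → ℂ),
      Sum.elim ![z₀, θ₀, Complex.exp z₀] (fun k : Q => q k) ∈
        Pt (Sum.elim ![z, θ, y] (fun k : Q => (k : K))) ∧
      ∑ b ∈ F, q (c b) * Complex.exp θ₀ ^ b ≠ 0 := by
  classical
  by_contra hcon
  push Not at hcon
  obtain ⟨D, hDz, hDy⟩ := exists_D h2 hz hal hy
  have hθ : ∀ c : ℂ, θ ≠ algebraMap ℂ K c := fun c' h => hm 0 1 (Or.inr one_ne_zero) c' (by
    rw [← h]; push_cast; ring)
  -- the polynomial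
  set P : K[X] := ∑ b ∈ F, C (c b) * X ^ b with hPdef
  have hcoeff : ∀ n, P.coeff n = if n ∈ F then c n else 0 := by
    intro n
    rw [hPdef, finsetSum_coeff]
    simp only [coeff_C_mul, coeff_X_pow, mul_ite, mul_one, mul_zero]
    rw [Finset.sum_ite_eq]
  have hP0 : P ≠ 0 := by
    obtain ⟨b, hb⟩ := hF
    intro h0
    have := hcoeff b
    rw [h0, coeff_zero, if_pos hb] at this
    exact (hc b hb).1 this.symm
  set lc : K := P.leadingCoeff with hlc
  have hlc0 : lc ≠ 0 := leadingCoeff_ne_zero.2 hP0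
  obtain ⟨A, R, d, hA, hgr⟩ := growth (θ := θ) hz hal
  let ι : Type := {r : K // r ∈ P.roots.toFinset ∧ r ≠ 0}
  have hfin : Finite ι := Finite.of_injective
    (fun r : ι => (⟨r.1, r.2.1⟩ : {r // r ∈ P.roots.toFinset})) (by
      intro a b hab
      exact Subtype.ext (congrArg (fun x : {r // r ∈ P.roots.toFinset} => x.1) hab))
  let δ : K → K := fun r => D θ - D r / r
  let Dj : ℕ → K → K := fun j r => (fun f => D f)^[j] (δ r)
  set Qs : Finset K := Q ∪ {θ, D θ, lc} ∪ P.roots.toFinset ∪ P.roots.toFinset.image (fun r => D r) ∪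
    ((Finset.range (d + 2)) ×ˢ P.roots.toFinset).image (fun x => Dj x.1 x.2) with hQs
  have hQQ : ∀ k ∈ Q, k ∈ Qs := fun k hk => by
    rw [hQs]; simp only [Finset.mem_union]; tauto
  have hθQ : θ ∈ Qs := by rw [hQs]; simp
  have hDθQ : D θ ∈ Qs := by rw [hQs]; simp
  have hlcQ : lc ∈ Qs := by rw [hQs]; simp
  have hrQ : ∀ r ∈ P.roots.toFinset, r ∈ Qs := fun k hk => by
    rw [hQs]; simp only [Finset.mem_union]; tauto
  have hDrQ : ∀ r ∈ P.roots.toFinset, D r ∈ Qs := fun r hr => by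
    rw [hQs]; simp only [Finset.mem_union, Finset.mem_image]
    exact Or.inl (Or.inr ⟨r, hr, rfl⟩)
  have hDjQ : ∀ j ≤ d + 1, ∀ r ∈ P.roots.toFinset, Dj j r ∈ Qs := fun j hj r hr => by
    rw [hQs]; simp only [Finset.mem_union, Finset.mem_image]
    exact Or.inr ⟨(j, r), Finset.mem_product.2 ⟨Finset.mem_range.2 (by omega), hr⟩, rfl⟩
  obtain ⟨C₀, T₀, hray⟩ := h1 K z y D hz hal hy hDy Qs
  set C₁ : ℝ := |C₀| + 1 with hC₁
  have hC₁0 : 0 ≤ C₁ := by positivity
  obtain ⟨T₁, han⟩ := an ι (d + 1) (A * 9 ^ d + 1) (by positivity) C₁ hC₁0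
  -- a large `T`
  have hlog : Tendsto (fun T : ℕ => Real.log T / T) atTop (𝓝 0) :=
    (Real.isLittleO_log_id_atTop.tendsto_div_nhds_zero).comp tendsto_natCast_atTop_atTop
  have hinv : Tendsto (fun T : ℕ => ((T : ℝ))⁻¹) atTop (𝓝 0) :=
    tendsto_inv_atTop_zero.comp tendsto_natCast_atTop_atTop
  have hcond : ∀ᶠ T : ℕ in atTop, 6 * (C₁ * Real.log T) + 10 ≤ T := by
    have h3 : Tendsto (fun T : ℕ => 6 * C₁ * (Real.log T / T) + 10 * ((T : ℝ))⁻¹) atTop
        (𝓝 (6 * C₁ * 0 + 10 * 0)) := (hlog.const_mul _).add (hinv.const_mul _)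
    rw [mul_zero, mul_zero, add_zero] at h3
    filter_upwards [h3.eventually (gt_mem_nhds (show (0 : ℝ) < 1 by norm_num)),
      eventually_gt_atTop 0] with T hT hT0
    have hT0' : (0 : ℝ) < T := by exact_mod_cast hT0
    have h4 : 6 * C₁ * (Real.log T / T) + 10 * ((T : ℝ))⁻¹
        = (6 * (C₁ * Real.log T) + 10) / T := by field_simp
    rw [h4, div_lt_one hT0'] at hT
    exact hT.le
  obtain ⟨T, hTc, hTT₁, hTT₀, hTR, hT8⟩ := (hcond.and ((eventually_ge_atTop T₁).and
    ((eventually_ge_atTop ⌈T₀⌉₊).and ((eventually_ge_atTop ⌈R⌉₊).and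
      (eventually_ge_atTop 8))))).exists
  have hTT₀' : T₀ ≤ (T : ℝ) := (Nat.le_ceil T₀).trans (by exact_mod_cast hTT₀)
  have hTR' : R ≤ (T : ℝ) := (Nat.le_ceil R).trans (by exact_mod_cast hTR)
  have hT8' : (8 : ℝ) ≤ T := by exact_mod_cast hT8
  have hTpos : (0 : ℝ) < T := by linarith
  have hlogT : 0 ≤ Real.log T := Real.log_nonneg (by linarith)
  obtain ⟨X', q, hXd, hqd, hpt⟩ := hray T hTT₀'
  rw [Complex.ofReal_natCast] at hXd hqd hpt
  have hTmem : (T : ℂ) ∈ ball (T : ℂ) ((T : ℝ) / 4) := mem_ball_self (by positivity)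
  -- bounds for nonzero elements
  have hexpC : ∀ k ∈ Qs, k ≠ 0 → ∀ κ ∈ ball (T : ℂ) ((T : ℝ) / 4),
      Real.exp (-(|C₀| * Real.log T)) ≤ ‖q k κ‖ ∧ ‖q k κ‖ ≤ Real.exp (|C₀| * Real.log T) := by
    intro k hk hk0 κ hκ
    obtain ⟨-, hb, -, -⟩ := hpt κ hκ
    obtain ⟨hb1, hb2⟩ := hb k hk
    rw [exp_log_mul hTpos] at hb1
    have hb3 := hb2 hk0
    rw [exp_log_mul hTpos] at hb3
    constructor
    · refine le_trans (Real.exp_le_exp.2 ?_) hb3
      nlinarith [le_abs_self C₀]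
    · refine hb1.trans (Real.exp_le_exp.2 ?_)
      nlinarith [le_abs_self C₀]
  have hqne : ∀ k ∈ Qs, k ≠ 0 → ∀ κ ∈ ball (T : ℂ) ((T : ℝ) / 4), q k κ ≠ 0 := by
    intro k hk hk0 κ hκ h0
    have := (hexpC k hk hk0 κ hκ).1
    rw [h0, norm_zero] at this
    exact absurd this (not_le.2 (Real.exp_pos _))
  -- logarithms
  have hL : ∀ r : ι, ∃ L : ℂ → ℂ, DifferentiableOn ℂ L (ball (T : ℂ) ((T : ℝ) / 4)) ∧
      (∀ κ ∈ ball (T : ℂ) ((T : ℝ) / 4), Complex.exp (L κ) = q r.1 κ) ∧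
      L T = Complex.log (q r.1 T) := fun r =>
    log_conv isOpen_ball (convex_ball _ _) hTmem (hqd r.1 (hrQ _ r.2.1))
      (hqne r.1 (hrQ _ r.2.1) r.2.2)
  choose L hLd hLe hLc using hL
  have hLb : ∀ r : ι, ∀ κ ∈ ball (T : ℂ) ((T : ℝ) / 4 / 2), ‖L r κ‖ ≤ T := by
    intro r κ hκ
    have hB : 0 ≤ |C₀| * Real.log T := by positivity
    have := bc_ball hB (hLd r) (fun u hu => by
      have h3 := hexpC r.1 (hrQ _ r.2.1) r.2.2 u hu
      rw [← hLe r u hu, Complex.norm_exp, Real.exp_le_exp, Real.exp_le_exp] at h3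
      exact abs_le.2 h3) (by
        rw [hLc, Complex.log_im]
        exact Complex.abs_arg_le_pi _) κ hκ
    refine this.trans (le_trans ?_ hTc)
    have : |C₀| ≤ C₁ := by rw [hC₁]; linarith
    gcongr
  have hπ : (2 * Real.pi * Complex.I : ℂ) ≠ 0 := Complex.two_pi_I_ne_zero
  have hπn : ‖(2 * Real.pi * Complex.I : ℂ)‖ = 2 * Real.pi := by
    rw [norm_mul, norm_mul, Complex.norm_I, mul_one, Complex.norm_real, Real.norm_eq_abs,
      abs_of_pos Real.pi_pos]
    norm_num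
  let G : ι → ℕ → ℂ → ℂ := fun r j κ => match j with
    | 0 => (q θ κ - L r κ) / (2 * Real.pi * Complex.I)
    | (j + 1) => q (Dj j r.1) κ / (2 * Real.pi * Complex.I)
  -- relations
  have hrelδ : ∀ r : ι, ∀ κ ∈ ball (T : ℂ) ((T : ℝ) / 4),
      q r.1 κ * q (δ r.1) κ = q r.1 κ * q (D θ) κ - q (D r.1) κ := by
    intro r κ hκ
    obtain ⟨hp, -, -, -⟩ := hpt κ hκ
    have k1 := hrQ _ r.2.1
    have k2 : δ r.1 ∈ Qs := hDjQ 0 (Nat.zero_le _) _ r.2.1
    have k3 := hDrQ _ r.2.1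
    have := hp (vr Qs r.1 * vr Qs (δ r.1) - (vr Qs r.1 * vr Qs (D θ) - vr Qs (D r.1))) (by
      rw [map_sub, map_sub, map_mul, map_mul, aeval_vr k1, aeval_vr k2, aeval_vr hDθQ, aeval_vr k3]
      change r.1 * (D θ - D r.1 / r.1) - _ = 0
      have := r.2.2
      field_simp
      ring)
    rw [map_sub, map_sub, map_mul, map_mul,
      eval_vr (q := fun k => q k κ) k1, eval_vr (q := fun k => q k κ) k2,
      eval_vr (q := fun k => q k κ) hDθQ, eval_vr (q := fun k => q k κ) k3] at this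
    exact sub_eq_zero.1 this
  have hder : ∀ k ∈ Qs, D k ∈ Qs → ∀ κ ∈ ball (T : ℂ) ((T : ℝ) / 4),
      HasDerivAt (q k) (q (D k) κ) κ := by
    intro k hk hDk κ hκ
    obtain ⟨-, -, hd, -⟩ := hpt κ hκ
    rw [← hd k hk hDk]
    exact ((hqd k hk).differentiableAt (isOpen_ball.mem_nhds hκ)).hasDerivAt
  have hG0 : ∀ r : ι, ∀ κ ∈ ball (T : ℂ) ((T : ℝ) / 4), HasDerivAt (G r 0) (G r 1 κ) κ := by
    intro r κ hκ
    have e1 := hder θ hθQ hDθQ κ hκ
    have e2 : HasDerivAt (L r) (deriv (L r) κ) κ :=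
      ((hLd r).differentiableAt (isOpen_ball.mem_nhds hκ)).hasDerivAt
    have e3 : HasDerivAt (fun u => Complex.exp (L r u)) (Complex.exp (L r κ) * deriv (L r) κ) κ :=
      e2.cexp
    have e4 : HasDerivAt (fun u => Complex.exp (L r u)) (q (D r.1) κ) κ := by
      refine (hder r.1 (hrQ _ r.2.1) (hDrQ _ r.2.1) κ hκ).congr_of_eventuallyEq ?_
      filter_upwards [isOpen_ball.mem_nhds hκ] with u hu using hLe r u hu
    have e5 := e3.unique e4
    rw [hLe r κ hκ] at e5
    have hr0 := hqne r.1 (hrQ _ r.2.1) r.2.2 κ hκ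
    have e6 : q (D θ) κ - deriv (L r) κ = q (δ r.1) κ := by
      have := hrelδ r κ hκ
      rw [← e5, ← mul_sub] at this
      exact (mul_left_cancel₀ hr0 this).symm
    have e7 := (e1.sub e2).div_const (2 * Real.pi * Complex.I)
    rw [e6] at e7
    exact e7
  obtain ⟨r, hr1, b, a, hTb, ha1, hba, ⟨n₁, hn₁⟩, ⟨n₂, hn₂⟩⟩ := han T hTT₁ G (by
      intro r j hj κ hκ
      match j with
      | 0 => exact hG0 r κ hκ
      | (j + 1) =>
        have e1 := hder (Dj j r.1) (hDjQ j (by omega) _ r.2.1) (by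
          have := hDjQ (j + 1) (by omega) r.1 r.2.1
          simp only [Dj] at this ⊢
          rwa [Function.iterate_succ_apply'] at this) κ hκ
        have e2 : D (Dj j r.1) = Dj (j + 1) r.1 := by
          simp only [Dj]
          rw [Function.iterate_succ_apply']
        rw [e2] at e1
        exact e1.div_const _) (by
      intro r
      exact (hqd _ (hDjQ (d + 1) le_rfl _ r.2.1)).div_const _) (by
      intro r κ hκ
      have hκ4 : κ ∈ ball (T : ℂ) ((T : ℝ) / 4) := ball_subset_ball (by linarith) hκ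
      have hκn : ‖κ - T‖ < T / 8 := by rwa [mem_ball, dist_eq_norm] at hκ
      obtain ⟨hp, -, -, hX⟩ := hpt κ hκ4
      have hTn : ‖(T : ℂ)‖ = T := by
        rw [← Complex.ofReal_natCast, Complex.norm_real, Real.norm_eq_abs, abs_of_pos hTpos]
      have hκ1 : ‖κ‖ ≤ 9 / 8 * T := by
        have := norm_sub_norm_le κ (T : ℂ)
        rw [hTn] at this
        linarith
      have hκ2 : 7 / 8 * T ≤ ‖κ‖ := by
        have := norm_sub_norm_le (T : ℂ) κ
        rw [hTn, norm_sub_rev] at this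
        linarith
      have hpi := Real.pi_gt_three
      have hpi' := Real.pi_lt_d2
      have hX1 : ‖X' κ‖ ≤ 9 * T := by
        have e := norm_sub_norm_le (X' κ) (2 * Real.pi * Complex.I * κ)
        rw [norm_mul, hπn] at e
        nlinarith
      have hX2 : (T : ℝ) ≤ ‖X' κ‖ := by
        have e := norm_sub_norm_le (2 * Real.pi * Complex.I * κ) (X' κ)
        rw [norm_mul, hπn, norm_sub_rev] at e
        nlinarith
      have hpθ : ![X' κ, q θ κ] ∈ Pt ![z, θ] := by
        have := pt_comp hp (![Sum.inl 0, Sum.inr ⟨θ, hθQ⟩] : Fin 2 → Fin 2 ⊕ Qs)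
        have e1 : (Sum.elim ![X' κ, Complex.exp (X' κ - 2 * Real.pi * Complex.I * κ)]
            (fun k : Qs => q k κ)) ∘ (![Sum.inl 0, Sum.inr ⟨θ, hθQ⟩] : Fin 2 → Fin 2 ⊕ Qs)
            = ![X' κ, q θ κ] := by
          funext i; fin_cases i <;> rfl
        have e2 : (Sum.elim ![z, y] (fun k : Qs => (k : K))) ∘
            (![Sum.inl 0, Sum.inr ⟨θ, hθQ⟩] : Fin 2 → Fin 2 ⊕ Qs) = ![z, θ] := by
          funext i; fin_cases i <;> rfl
        rwa [e1, e2] at this
      have hθb := hgr _ _ hpθ (hTR'.trans hX2)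
      have hLb' := hLb r κ (by
        refine ball_subset_ball (le_of_eq ?_) hκ
        ring)
      change ‖(q θ κ - L r κ) / (2 * Real.pi * Complex.I)‖ ≤ _
      rw [norm_div, hπn]
      have hT1 : (1 : ℝ) ≤ T := by linarith
      have hTd : (T : ℝ) ^ d ≤ T ^ (d + 1) := pow_le_pow_right₀ hT1 (Nat.le_succ d)
      have hTd1 : (T : ℝ) ≤ T ^ (d + 1) := by
        calc (T : ℝ) = T ^ 1 := (pow_one _).symm
          _ ≤ _ := pow_le_pow_right₀ hT1 (by omega)
      have e5 : ‖q θ κ - L r κ‖ ≤ (A * 9 ^ d + 1) * T ^ (d + 1) := by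
        calc ‖q θ κ - L r κ‖ ≤ ‖q θ κ‖ + ‖L r κ‖ := norm_sub_le _ _
          _ ≤ A * ‖X' κ‖ ^ d + T := add_le_add hθb hLb'
          _ ≤ A * (9 * T) ^ d + T := by gcongr
          _ = A * 9 ^ d * T ^ d + T := by rw [mul_pow]; ring
          _ ≤ A * 9 ^ d * T ^ (d + 1) + T ^ (d + 1) := by gcongr
          _ = _ := by ring
      rw [div_le_iff₀ (by positivity)]
      have e6 : 0 ≤ (A * 9 ^ d + 1) * (T : ℝ) ^ (d + 1) := by positivity
      nlinarith) (by
      intro k hk
      obtain ⟨hp, -, -, -⟩ := hpt k hk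
      -- the point
      have hexp : Complex.exp (X' k - 2 * Real.pi * Complex.I * k) = Complex.exp (X' k) := by
        rw [Complex.exp_sub]
        have : Complex.exp (2 * Real.pi * Complex.I * k) = 1 := by
          rw [mul_comm]
          exact Complex.exp_nat_mul_two_pi_mul_I k
        rw [this, div_one]
      rw [hexp] at hp
      have hpQ : Sum.elim ![X' k, q θ k, Complex.exp (X' k)] (fun k' : Q => q k' k) ∈
          Pt (Sum.elim ![z, θ, y] (fun k : Q => (k : K))) := by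
        have := pt_comp hp (Sum.elim (![Sum.inl 0, Sum.inr ⟨θ, hθQ⟩, Sum.inl 1] :
          Fin 3 → Fin 2 ⊕ Qs) (fun k : Q => Sum.inr ⟨k.1, hQQ k.1 k.2⟩))
        have e1 : (Sum.elim ![X' k, Complex.exp (X' k)] (fun k' : Qs => q k' k)) ∘
            (Sum.elim (![Sum.inl 0, Sum.inr ⟨θ, hθQ⟩, Sum.inl 1] :
              Fin 3 → Fin 2 ⊕ Qs) (fun k : Q => Sum.inr ⟨k.1, hQQ k.1 k.2⟩))
            = Sum.elim ![X' k, q θ k, Complex.exp (X' k)] (fun k' : Q => q k' k) := by
          funext i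
          rcases i with i | i
          · fin_cases i <;> rfl
          · rfl
        have e2 : (Sum.elim ![z, y] (fun k : Qs => (k : K))) ∘
            (Sum.elim (![Sum.inl 0, Sum.inr ⟨θ, hθQ⟩, Sum.inl 1] :
              Fin 3 → Fin 2 ⊕ Qs) (fun k : Q => Sum.inr ⟨k.1, hQQ k.1 k.2⟩))
            = Sum.elim ![z, θ, y] (fun k : Q => (k : K)) := by
          funext i
          rcases i with i | i
          · fin_cases i <;> rfl
          · rfl
        rwa [e1, e2] at this
      have hsum := hcon _ _ (fun k' => q k' k) hpQ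
      -- the factorization
      set t₀ : ℂ := Complex.exp (q θ k) with ht₀
      have hrel := hp (∑ b ∈ F, vr Qs (c b) * MvPolynomial.C t₀ ^ b -
        vr Qs lc * (P.roots.map fun r => MvPolynomial.C t₀ - vr Qs r).prod) (by
          rw [map_sub, map_sum, map_mul, map_multiset_prod, aeval_vr hlcQ, Multiset.map_map]
          have e1 : ∑ b ∈ F, MvPolynomial.aeval (Sum.elim ![z, y] (fun k : Qs => (k : K)))
              (vr Qs (c b) * MvPolynomial.C t₀ ^ b) = P.eval (algebraMap ℂ K t₀) := by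
            rw [hPdef, eval_finsetSum]
            refine Finset.sum_congr rfl fun b hb => ?_
            rw [map_mul, map_pow, aeval_vr (hQQ _ (hc b hb).2), MvPolynomial.aeval_C, eval_mul,
              eval_C, eval_pow, eval_X]
          have e2 : P.roots.map (⇑(MvPolynomial.aeval
              (Sum.elim ![z, y] (fun k : Qs => (k : K)))) ∘ fun r => MvPolynomial.C t₀ - vr Qs r)
              = P.roots.map (fun r => algebraMap ℂ K t₀ - r) := by
            refine Multiset.map_congr rfl fun r hr => ?_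
            rw [Function.comp_apply, map_sub, MvPolynomial.aeval_C,
              aeval_vr (hrQ r (Multiset.mem_toFinset.2 hr))]
          rw [e1, e2, (IsAlgClosed.splits P).eval_eq_prod_roots, sub_self])
      rw [map_sub, map_sum, map_mul, map_multiset_prod, Multiset.map_map,
        eval_vr (q := fun k' => q k' k) hlcQ] at hrel
      have e3 : ∑ b ∈ F, MvPolynomial.eval (Sum.elim ![X' k, Complex.exp (X' k)]
          (fun k' : Qs => q k' k)) (vr Qs (c b) * MvPolynomial.C t₀ ^ b)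
          = ∑ b ∈ F, q (c b) k * t₀ ^ b := by
        refine Finset.sum_congr rfl fun b hb => ?_
        rw [map_mul, map_pow, eval_vr (q := fun k' => q k' k) (hQQ _ (hc b hb).2),
          MvPolynomial.eval_C]
      rw [e3] at hrel
      rw [hsum, zero_sub, neg_eq_zero, mul_eq_zero] at hrel
      have hprod := hrel.resolve_left (hqne lc hlcQ hlc0 k hk)
      rw [Multiset.prod_eq_zero_iff, Multiset.mem_map] at hprod
      obtain ⟨r, hr, hr0⟩ := hprod
      have hrf : r ∈ P.roots.toFinset := Multiset.mem_toFinset.2 hr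
      rw [Function.comp_apply, map_sub, MvPolynomial.eval_C,
        eval_vr (q := fun k' => q k' k) (hrQ r hrf), sub_eq_zero] at hr0
      have hrne : r ≠ 0 := by
        rintro rfl
        have := hp (vr Qs 0) (by rw [aeval_vr (hrQ 0 hrf)])
        rw [eval_vr (q := fun k' => q k' k) (hrQ 0 hrf)] at this
        rw [this] at hr0
        exact Complex.exp_ne_zero _ hr0
      refine ⟨⟨r, hrf, hrne⟩, ?_⟩
      have e4 : Complex.exp (q θ k) = Complex.exp (L ⟨r, hrf, hrne⟩ k) := by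
        rw [hLe ⟨r, hrf, hrne⟩ k hk]
        exact hr0
      obtain ⟨n, hn⟩ := Complex.exp_eq_exp_iff_exists_int.1 e4
      refine ⟨n, ?_⟩
      change (q θ k - L ⟨r, hrf, hrne⟩ k) / (2 * Real.pi * Complex.I) = n
      rw [hn, add_sub_cancel_left, mul_div_assoc, div_self hπ, mul_one])
  -- the derivative vanishes
  have hzero : Dj (d + 1) r.1 = 0 := by
    by_contra hne
    apply hr1
    intro κ hκ
    have h3 := hexpC _ (hDjQ (d + 1) le_rfl _ r.2.1) hne κ hκ
    change _ ≤ ‖q (Dj (d + 1) r.1) κ / (2 * Real.pi * Complex.I)‖ ∧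
      ‖q (Dj (d + 1) r.1) κ / (2 * Real.pi * Complex.I)‖ ≤ _
    rw [norm_div, hπn]
    have hpi := Real.pi_gt_three
    have hpi' := Real.pi_lt_d2
    have hTe : Real.exp (Real.log T) = T := Real.exp_log hTpos
    constructor
    · rw [le_div_iff₀ (by positivity)]
      refine le_trans ?_ h3.1
      have e1 : Real.exp (-(C₁ * Real.log T)) * T = Real.exp (-(|C₀| * Real.log T)) := by
        conv_lhs => rw [← hTe]
        rw [Real.log_exp, ← Real.exp_add, hC₁]
        congr 1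
        ring
      rw [← e1]
      gcongr
      linarith
    · rw [div_le_iff₀ (by positivity)]
      have e1 : Real.exp (|C₀| * Real.log T) ≤ Real.exp (C₁ * Real.log T) := by
        apply Real.exp_le_exp.2
        rw [hC₁]
        nlinarith
      have e2 : 0 < Real.exp (C₁ * Real.log T) := Real.exp_pos _
      nlinarith [h3.2]
  obtain ⟨c₀, hc₀, hδ⟩ := delta_const h2 hz hal hy hy' hθ D hDz hDy r.2.2 hzero
  -- the difference of the values at two integers
  have hconst : ∀ κ ∈ ball (T : ℂ) ((T : ℝ) / 4), G r 1 κ = c₀ / (2 * Real.pi * Complex.I) := by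
    intro κ hκ
    obtain ⟨hp, -, -, -⟩ := hpt κ hκ
    have k2 : δ r.1 ∈ Qs := hDjQ 0 (Nat.zero_le _) _ r.2.1
    have := hp (vr Qs (δ r.1) - MvPolynomial.C c₀) (by
      rw [map_sub, aeval_vr k2, MvPolynomial.aeval_C, sub_eq_zero]
      exact hδ)
    rw [map_sub, eval_vr (q := fun k => q k κ) k2, MvPolynomial.eval_C, sub_eq_zero] at this
    change q (δ r.1) κ / _ = _
    rw [this]
  have hTb' : (T : ℝ) ≤ b := by exact_mod_cast hTb
  have ha0 : (0 : ℝ) ≤ a := Nat.cast_nonneg a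
  have hfd := fd_est (G := fun j x => G r j x) (N := 1) (a := (a : ℝ)) (b := (b : ℝ)) (η := 0)
    (w := c₀ / (2 * Real.pi * Complex.I)) ha0 (by
      intro j hj x hx1 hx2
      obtain rfl : j = 0 := by omega
      refine (hG0 r x ?_).comp_ofReal
      rw [Nat.cast_one, one_mul] at hx2
      rw [mem_ball, dist_eq_norm, ← Complex.ofReal_natCast, ← Complex.ofReal_sub,
        Complex.norm_real, Real.norm_eq_abs, abs_of_nonneg (by linarith)]
      linarith) (by
      intro x hx1 hx2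
      rw [Nat.cast_one, one_mul] at hx2
      rw [hconst, sub_self, norm_zero]
      rw [mem_ball, dist_eq_norm, ← Complex.ofReal_natCast, ← Complex.ofReal_sub,
        Complex.norm_real, Real.norm_eq_abs, abs_of_nonneg (by linarith)]
      linarith)
  rw [mul_zero, norm_le_zero_iff, Function.iterate_one, pow_one, sub_eq_zero] at hfd
  have e1 : fwdDiff (a : ℝ) (fun x : ℝ => G r 0 x) b = G r 0 ((b + a : ℕ) : ℂ) - G r 0 b := by
    rw [fwdDiff]
    push_cast
    rfl
  rw [e1, hn₁, hn₂] at hfd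
  refine not_rat h2 hz hal hy hm D hDz hDy r.2.2 hδ (s := a) (p := n₂ - n₁)
    (by exact_mod_cast (by omega : a ≠ 0)) ?_
  push_cast
  rw [hfd]
  push_cast
  field_simp

/-- OV1, with the strengthened form of `S_ray` -/
theorem ov1X (h1 : S_rayX) (h2 : S_axK) : S_ov1 := by
  intro K _ _ z θ y hz hal hy hy' hm F c Q hF hc
  classical
  let K' := AlgebraicClosure K
  let φ : K →ₐ[ℂ] K' := IsScalarTower.toAlgHom ℂ K K'
  have hφ : Function.Injective φ := φ.injective
  have hφa : ∀ c : ℂ, φ (algebraMap ℂ K c) = algebraMap ℂ K' c := fun c => φ.commutes c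
  have hzt : Transcendental ℂ (φ z) := by
    rw [transcendental_iff_injective] at hz ⊢
    have : (Polynomial.aeval (φ z) : ℂ[X] → K') = φ ∘ (Polynomial.aeval z : ℂ[X] → K) := by
      funext p
      rw [Function.comp_apply, Polynomial.aeval_algHom_apply]
    rw [this]
    exact hφ.comp hz
  have hal' : ∀ f : K', Al {φ z} f := by
    intro f
    have hle : (IntermediateField.adjoin ℂ ({z} : Set K)).map φ
        = IntermediateField.adjoin ℂ {φ z} := by
      rw [IntermediateField.adjoin_map, Set.image_singleton]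
    let k := IntermediateField.adjoin ℂ ({z} : Set K)
    have _ : Algebra.IsAlgebraic k K := ⟨hal⟩
    have h3 : IsAlgebraic k f := by
      have : Algebra.IsAlgebraic k K' := Algebra.IsAlgebraic.trans k K K'
      exact this.isAlgebraic f
    obtain ⟨p, hp, hpf⟩ := h3
    let g : k →+* IntermediateField.adjoin ℂ ({φ z} : Set K') :=
      { toFun := fun x => ⟨φ x.1, by
          rw [← hle]
          exact ⟨x.1, x.2, rfl⟩⟩
        map_one' := by ext; simp
        map_mul' := fun a b => by ext; simp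
        map_zero' := by ext; simp
        map_add' := fun a b => by ext; simp }
    refine ⟨p.map g, (Polynomial.map_ne_zero_iff g.injective).2 hp, ?_⟩
    rw [aeval_def, eval₂_map]
    exact hpf
  obtain ⟨z₀, θ₀, q, hpt, hne⟩ := ov1c h1 h2 K' (φ z) (φ θ) (φ y) hzt hal'
    ((map_ne_zero φ).2 hy) (fun c h => hy' c (hφ (h.trans (hφa c).symm)))
    (fun m₁ m₂ h c h' => hm m₁ m₂ h c (hφ (by
      rw [map_add, map_mul, map_mul, map_intCast, map_intCast, hφa]
      exact h'))) F (fun b => φ (c b)) (Q.image φ) hF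
    (fun b hb => ⟨(map_ne_zero φ).2 (hc b hb).1, Finset.mem_image_of_mem φ (hc b hb).2⟩)
  refine ⟨z₀, θ₀, fun k => q (φ k), ?_, hne⟩
  have h4 := pt_comp hpt (Sum.elim Sum.inl (fun k : Q => Sum.inr ⟨φ k.1,
    Finset.mem_image_of_mem φ k.2⟩) : Fin 3 ⊕ Q → Fin 3 ⊕ (Q.image φ : Finset K'))
  have e1 : (Sum.elim ![z₀, θ₀, Complex.exp z₀] fun k : (Q.image φ : Finset K') => q k) ∘
      (Sum.elim Sum.inl (fun k : Q => Sum.inr ⟨φ k.1,
        Finset.mem_image_of_mem φ k.2⟩) : Fin 3 ⊕ Q → Fin 3 ⊕ (Q.image φ : Finset K'))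
      = Sum.elim ![z₀, θ₀, Complex.exp z₀] (fun k : Q => q (φ k)) := by
    funext i
    rcases i with i | i <;> rfl
  have e2 : (Sum.elim ![φ z, φ θ, φ y] fun k : (Q.image φ : Finset K') => (k : K')) ∘
      (Sum.elim Sum.inl (fun k : Q => Sum.inr ⟨φ k.1,
        Finset.mem_image_of_mem φ k.2⟩) : Fin 3 ⊕ Q → Fin 3 ⊕ (Q.image φ : Finset K'))
      = φ ∘ Sum.elim ![z, θ, y] (fun k : Q => (k : K)) := by
    funext i
    rcases i with i | i
    · fin_cases i <;> rfl
    · rfl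
  rw [e1, e2] at h4
  intro P hP
  refine h4 P ?_
  have e3 : (fun i => φ ((Sum.elim ![z, θ, y] (fun k : Q => (k : K))) i))
      = φ ∘ Sum.elim ![z, θ, y] (fun k : Q => (k : K)) := rfl
  rw [← e3, ← MvPolynomial.comp_aeval_apply, hP, map_zero]

end Pool.Agent.H79.EX
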