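import Pool.Agent.H935.EX.Ray
import Pool.Agent.H79.EX.Ov

/-!
Project EX (helper664): the strengthened form `S_rayX` of `S_ray`, needed for OV1, and the final
form of OV1.
-/

set_option autoImplicit false

namespace Pool.Agent.H79.EX

open MvPolynomial Filter Topology Metric Pool.Agent.W996.EC Pool.Agent.Q72.EG Pool.Agent.H664.FH
  Pool.Agent.H664.EX Pool.Agent.H935.EX

variable {K : Type} [Field K] [Algebra ℂ K]

/-- `S_rayX`: the proof of `Pool.Agent.H935.EX.ray` (by helper935), with the additional clause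
`‖X κ - 2πi κ‖ ≤ T` recorded. -/
theorem rayX (h2 : S_sheet) (h3 : S_fixp) : S_rayX := by
  classical
  intro K _ _ z y D htr hz hy hD Q
  obtain ⟨Q', hQQ, hzQ, hyQ, hinv, hder⟩ := ders z y D hz hy hD Q
  have hr : Set.range (![z] : Fin 1 → K) = {z} := by simp
  have hind : AlgebraicIndependent ℂ (![z] : Fin 1 → K) := by
    rw [algebraicIndependent_unique_type_iff]
    exact htr
  obtain ⟨H, hH0, hH1, hH2, -⟩ := h2 1 K ![z] Q' (fun k : Q' => (k : K)) hind
    (fun k => by rw [hr]; exact hz _)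
  obtain ⟨C, T₁, hT₁, hbd⟩ := bounds z hz Q'
  obtain ⟨m, R₀, hm, hlow⟩ := low hH0
  -- `log T` is small
  obtain ⟨T₂, hT₂⟩ : ∃ T₂ : ℝ, ∀ T : ℝ, T₂ ≤ T → 4 * (6 * (C * Real.log T) + 10) ≤ T / 64 := by
    have h1 : Tendsto (fun T : ℝ => (4 * (6 * (C * Real.log T) + 10)) / T) atTop (𝓝 0) := by
      have h2 : Tendsto (fun T : ℝ => Real.log T / T) atTop (𝓝 0) :=
        Real.isLittleO_log_id_atTop.tendsto_div_nhds_zero
      have h3 : Tendsto (fun T : ℝ => (24 * C) * (Real.log T / T) + 40 * T⁻¹) atTop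
          (𝓝 ((24 * C) * 0 + 40 * 0)) :=
        (h2.const_mul _).add (tendsto_inv_atTop_zero.const_mul _)
      rw [mul_zero, mul_zero, add_zero] at h3
      refine h3.congr fun T => ?_
      ring
    have h4 := (h1.eventually_lt_const (show (0 : ℝ) < 1 / 64 by norm_num)).and
      (eventually_gt_atTop (0 : ℝ))
    obtain ⟨T₂, h5⟩ := h4.exists_forall_of_atTop
    refine ⟨T₂, fun T hT => ?_⟩
    obtain ⟨h6, h7⟩ := h5 T hT
    rw [div_lt_iff₀ h7] at h6
    linarith
  refine ⟨C, max (max T₁ 1) (max R₀ T₂), fun T hT => ?_⟩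
  have hT1 : T₁ ≤ T := (le_max_left _ _).trans ((le_max_left _ _).trans hT)
  have hT1' : 1 ≤ T := hT₁.trans hT1
  have hTR : R₀ ≤ T := (le_max_left _ _).trans ((le_max_right _ _).trans hT)
  have hT2 : T₂ ≤ T := (le_max_right _ _).trans ((le_max_right _ _).trans hT)
  have hT0 : 0 < T := by linarith
  have hTc : (T : ℂ) ≠ 0 := by exact_mod_cast hT0.ne'
  have hlogT : 0 ≤ Real.log T := Real.log_nonneg hT1'
  -- the family of points
  set XX : (Fin 1 → ℂ) → Fin 1 → ℂ := fun u _ => 2 * Real.pi * Complex.I * T + 4 * T * u 0 with hXX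
  have hnorm : ∀ u ∈ ball (0 : Fin 1 → ℂ) 1, 2 * T ≤ ‖XX u 0‖ ∧ ‖XX u 0‖ ≤ 11 * T := by
    intro u hu
    have hu0 : ‖u 0‖ < 1 := lt_of_le_of_lt (norm_le_pi_norm u 0) (mem_ball_zero_iff.1 hu)
    have e1 : ‖(2 * Real.pi * Complex.I * T : ℂ)‖ = 2 * Real.pi * T := by
      rw [norm_mul, norm_mul, norm_mul, Complex.norm_I, Complex.norm_real, Complex.norm_real,
        Real.norm_eq_abs, Real.norm_eq_abs, abs_of_pos Real.pi_pos, abs_of_pos hT0]
      norm_num
    have e2 : ‖(4 * T * u 0 : ℂ)‖ ≤ 4 * T := by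
      rw [norm_mul, norm_mul, Complex.norm_real, Real.norm_eq_abs, abs_of_pos hT0]
      have : ‖(4 : ℂ)‖ = 4 := by norm_num
      rw [this]
      nlinarith
    have p1 := Real.pi_gt_three
    have p2 := Real.pi_lt_d2
    constructor
    · have := norm_sub_norm_le (2 * Real.pi * Complex.I * T : ℂ) (-(4 * T * u 0))
      rw [norm_neg, sub_neg_eq_add] at this
      have h5 : ‖XX u 0‖ = ‖(2 * Real.pi * Complex.I * T + 4 * T * u 0 : ℂ)‖ := rfl
      rw [h5]
      nlinarith
    · have := norm_add_le (2 * Real.pi * Complex.I * T : ℂ) (4 * T * u 0)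
      have h5 : ‖XX u 0‖ = ‖(2 * Real.pi * Complex.I * T + 4 * T * u 0 : ℂ)‖ := rfl
      rw [h5]
      nlinarith
  have hHne : ∀ u ∈ ball (0 : Fin 1 → ℂ) 1, eval (XX u) H ≠ 0 := by
    intro u hu h0
    have h4 := hlow (XX u) (by have := (hnorm u hu).1; linarith)
    rw [h0, norm_zero] at h4
    linarith
  have hXd : DifferentiableOn ℂ XX (ball (0 : Fin 1 → ℂ) 1) := by
    rw [differentiableOn_pi]
    intro i
    apply Differentiable.differentiableOn
    simp only [hXX]
    fun_prop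
  have h0mem : (0 : Fin 1 → ℂ) ∈ ball (0 : Fin 1 → ℂ) 1 := mem_ball_self one_pos
  obtain ⟨q₀, hq₀⟩ := hH1 (XX 0) (hHne 0 h0mem)
  obtain ⟨q, hqd, -, hqP⟩ := hH2 (Fin 1 → ℂ) (ball (0 : Fin 1 → ℂ) 1) XX isOpen_ball
    (convex_ball _ _) hXd hHne 0 h0mem q₀ hq₀
  have hqd' : ∀ k, DifferentiableOn ℂ (fun u => q u k) (ball (0 : Fin 1 → ℂ) 1) :=
    differentiableOn_pi.1 hqd
  -- all values
  set qq : K → (Fin 1 → ℂ) → ℂ := fun k u => if h : k ∈ Q' then q u ⟨k, h⟩ else 0 with hqq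
  have hqqd : ∀ k, DifferentiableOn ℂ (qq k) (ball (0 : Fin 1 → ℂ) 1) := by
    intro k
    simp only [hqq]
    by_cases h : k ∈ Q'
    · simp only [dif_pos h]
      exact hqd' _
    · simp only [dif_neg h]
      exact differentiableOn_const 0
  have hvals : ∀ u ∈ ball (0 : Fin 1 → ℂ) 1, Vals Q' (fun k => qq k u) := by
    intro u hu σ e he g hg
    have h4 := hqP u hu (rename (fun i => Sum.inr ⟨e i, he i⟩) g) (by
      rw [aeval_rename]
      exact hg)
    rw [eval_rename] at h4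
    have h5 : (Sum.elim (XX u) (q u)) ∘ (fun i => Sum.inr (⟨e i, he i⟩ : Q')) =
        fun i => qq (e i) u := by
      funext i
      simp only [hqq, dif_pos (he i)]
      rfl
    rwa [h5] at h4
  have hzval : ∀ u ∈ ball (0 : Fin 1 → ℂ) 1, qq z u = XX u 0 := by
    intro u hu
    have h4 := hqP u hu (X (Sum.inr ⟨z, hzQ⟩) - X (Sum.inl 0)) (by
      rw [map_sub, aeval_X, aeval_X]
      exact sub_self _)
    rw [map_sub, eval_X, eval_X] at h4
    simp only [hqq, dif_pos hzQ]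
    exact sub_eq_zero.1 h4
  have hup : ∀ u ∈ ball (0 : Fin 1 → ℂ) 1, ∀ k ∈ Q', ‖qq k u‖ ≤ T ^ C := by
    intro u hu k hk
    simp only [hqq, dif_pos hk]
    exact hbd T hT1 (XX u) (q u) (hnorm u hu).1 (hnorm u hu).2 (hqP u hu) _
  have hlo : ∀ u ∈ ball (0 : Fin 1 → ℂ) 1, ∀ k ∈ Q', k ≠ 0 → (T ^ C)⁻¹ ≤ ‖qq k u‖ := by
    intro u hu k hk h0
    have h4 := (hvals u hu).inv hk (hinv k hk) h0
    have h5 := hup u hu _ (hinv k hk)
    have h6 : ‖qq k u‖ * ‖qq k⁻¹ u‖ = 1 := by
      rw [← norm_mul, h4, norm_one]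
    have h7 : 0 < T ^ C := by positivity
    rw [inv_le_iff_one_le_mul₀ h7, ← h6]
    exact mul_le_mul_of_nonneg_left h5 (norm_nonneg _)
  -- the logarithm
  have hyne : ∀ u ∈ ball (0 : Fin 1 → ℂ) 1, qq y u ≠ 0 := fun u hu =>
    (hvals u hu).ne hyQ (hinv y hyQ) hy
  obtain ⟨ℓ, hℓd, hℓe, hℓi⟩ := Pool.Agent.Q177.EG.log 1 0 1 (qq y) one_pos (hqqd y) hyne
  have hℓr : ∀ u ∈ ball (0 : Fin 1 → ℂ) 1, |(ℓ u).re| ≤ C * Real.log T := by
    intro u hu
    have h4 : Real.exp (ℓ u).re = ‖qq y u‖ := by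
      rw [← hℓe u hu, Complex.norm_exp]
    have h5 := hup u hu y hyQ
    have h6 := hlo u hu y hyQ hy
    rw [← h4] at h5 h6
    have h7 : Real.log (T ^ C) = C * Real.log T := Real.log_pow _ _
    have h8 : 0 < T ^ C := by positivity
    rw [abs_le]
    constructor
    · have := Real.log_le_log (by positivity) h6
      rw [Real.log_exp, Real.log_inv, h7] at this
      exact this
    · have := Real.log_le_log (Real.exp_pos _) h5
      rwa [Real.log_exp, h7] at this
  have hℓb := Pool.Agent.Q177.EG.bc 1 0 1 (C * Real.log T) ℓ one_pos (by positivity) hℓd hℓr hℓi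
  -- the fixed point
  set arg : ℂ → ℂ → Fin 1 → ℂ := fun w s _ => Real.pi * Complex.I / 8 * s + w / 16 with harg
  have hargn : ∀ w s : ℂ, ‖w‖ < 1 → ‖s‖ < 1 → arg w s ∈ ball (0 : Fin 1 → ℂ) (1 / 2) := by
    intro w s hw hs
    rw [mem_ball_zero_iff]
    rw [pi_norm_lt_iff (by norm_num)]
    intro i
    have p2 := Real.pi_lt_d2
    have p1 := Real.pi_pos
    have e1 : ‖(Real.pi * Complex.I / 8 * s : ℂ)‖ ≤ Real.pi / 8 := by
      rw [norm_mul, norm_div, norm_mul, Complex.norm_I, Complex.norm_real, Real.norm_eq_abs,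
        abs_of_pos p1]
      have : ‖(8 : ℂ)‖ = 8 := by norm_num
      rw [this, mul_one]
      nlinarith
    have e2 : ‖(w / 16 : ℂ)‖ ≤ 1 / 16 := by
      rw [norm_div]
      have : ‖(16 : ℂ)‖ = 16 := by norm_num
      rw [this]
      linarith
    calc ‖(Real.pi * Complex.I / 8 * s + w / 16 : ℂ)‖ ≤ Real.pi / 8 + 1 / 16 :=
          (norm_add_le _ _).trans (add_le_add e1 e2)
      _ < 1 / 2 := by linarith
  have hhalf : ball (0 : Fin 1 → ℂ) (1 / 2) ⊆ ball (0 : Fin 1 → ℂ) 1 :=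
    ball_subset_ball (by norm_num)
  obtain ⟨φ, hφd, hφ⟩ := h3 (fun v => 4 / T * ℓ (arg (v 0) (v 1))) (by
      apply DifferentiableOn.const_mul
      apply hℓd.comp
      · apply Differentiable.differentiableOn
        rw [differentiable_pi]
        intro i
        simp only [harg]
        fun_prop
      · intro v hv
        have hv' := mem_ball_zero_iff.1 hv
        exact hhalf (hargn _ _ (lt_of_le_of_lt (norm_le_pi_norm v 0) hv')
          (lt_of_le_of_lt (norm_le_pi_norm v 1) hv')))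
    (by
      intro v hv
      have hv' := mem_ball_zero_iff.1 hv
      have h4 := hℓb _ (hargn _ _ (lt_of_le_of_lt (norm_le_pi_norm v 0) hv')
          (lt_of_le_of_lt (norm_le_pi_norm v 1) hv'))
      have h5 := hT₂ T hT2
      rw [norm_mul, norm_div, Complex.norm_real, Real.norm_eq_abs, abs_of_pos hT0]
      have : ‖(4 : ℂ)‖ = 4 := by norm_num
      rw [this, div_mul_eq_mul_div, div_le_iff₀ hT0]
      linarith)
  -- the solution
  set sc : ℂ → ℂ := fun κ => 4 * (κ - T) / T with hsc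
  have hscn : ∀ κ ∈ ball (T : ℂ) (T / 4), sc κ ∈ ball (0 : ℂ) 1 := by
    intro κ hκ
    rw [mem_ball, dist_eq_norm] at hκ
    rw [mem_ball_zero_iff]
    simp only [hsc]
    rw [norm_div, norm_mul, Complex.norm_real, Real.norm_eq_abs, abs_of_pos hT0, div_lt_one hT0]
    have : ‖(4 : ℂ)‖ = 4 := by norm_num
    rw [this]
    linarith
  set uu : ℂ → Fin 1 → ℂ := fun κ => arg (φ (sc κ)) (sc κ) with huu
  have huun : ∀ κ ∈ ball (T : ℂ) (T / 4), uu κ ∈ ball (0 : Fin 1 → ℂ) (1 / 2) := by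
    intro κ hκ
    have h4 := hscn κ hκ
    refine hargn _ _ ?_ (mem_ball_zero_iff.1 h4)
    exact lt_of_le_of_lt (hφ _ h4).1 (by norm_num)
  have huud : DifferentiableOn ℂ uu (ball (T : ℂ) (T / 4)) := by
    have h4 : DifferentiableOn ℂ sc (ball (T : ℂ) (T / 4)) := by
      apply Differentiable.differentiableOn
      simp only [hsc]
      fun_prop
    have h5 : DifferentiableOn ℂ (fun κ => φ (sc κ)) (ball (T : ℂ) (T / 4)) :=
      hφd.comp h4 hscn
    rw [differentiableOn_pi]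
    intro i
    simp only [huu, harg]
    exact (h4.const_mul _).add (h5.div_const _)
  have hXeq : ∀ κ ∈ ball (T : ℂ) (T / 4),
      XX (uu κ) 0 = 2 * Real.pi * Complex.I * κ + ℓ (uu κ) := by
    intro κ hκ
    have h4 := (hφ _ (hscn κ hκ)).2
    simp only [Matrix.cons_val_zero, Matrix.cons_val_one] at h4
    have h5 : ℓ (uu κ) = T / 4 * φ (sc κ) := by
      have h6 : φ (sc κ) = 4 / T * ℓ (uu κ) := h4
      rw [h6]
      field_simp
    rw [h5]
    simp only [hXX, huu, harg]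
    have h6 : sc κ = 4 * (κ - T) / T := rfl
    generalize φ (sc κ) = a
    rw [h6]
    field_simp
    ring
  refine ⟨fun κ => qq z (uu κ), fun k κ => qq k (uu κ), ?_, ?_, ?_⟩
  · exact (hqqd z).comp huud fun κ hκ => hhalf (huun κ hκ)
  · exact fun k _ => (hqqd k).comp huud fun κ hκ => hhalf (huun κ hκ)
  · intro κ hκ
    have hexp : ∀ κ ∈ ball (T : ℂ) (T / 4),
        qq y (uu κ) = Complex.exp (qq z (uu κ) - 2 * Real.pi * Complex.I * κ) := by
      intro κ hκ
      have h4 := hhalf (huun κ hκ)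
      rw [hzval _ h4, hXeq κ hκ, add_sub_cancel_left, hℓe _ h4]
    have hu := hhalf (huun κ hκ)
    refine ⟨?_, ?_, ?_, ?_⟩
    · intro g hg
      have h4 := hvals _ hu (Fin 2 ⊕ Q) (Sum.elim ![z, y] (fun k : Q => (k : K))) (by
        rintro (i | i)
        · fin_cases i
          · exact hzQ
          · exact hyQ
        · exact hQQ i.2) g hg
      have h5 : (fun i => qq ((Sum.elim ![z, y] (fun k : Q => (k : K)) : Fin 2 ⊕ Q → K) i) (uu κ))
          = Sum.elim ![qq z (uu κ), Complex.exp (qq z (uu κ) - 2 * Real.pi * Complex.I * κ)]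
            (fun k : Q => qq k (uu κ)) := by
        funext i
        rcases i with i | i
        · fin_cases i
          · rfl
          · exact hexp κ hκ
        · rfl
      rw [h5] at h4
      exact h4
    · intro k hk
      have h4 := hup _ hu k (hQQ hk)
      refine ⟨?_, fun h0 => ?_⟩
      · rw [Real.rpow_natCast]
        exact h4
      · rw [Real.rpow_neg hT0.le, Real.rpow_natCast]
        exact hlo _ hu k (hQQ hk) h0
    · exact hder (ball (T : ℂ) (T / 4)) (fun k κ => qq k (uu κ)) isOpen_ball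
        (fun k _ => (hqqd k).comp huud fun κ hκ => hhalf (huun κ hκ))
        (fun κ hκ => hvals _ (hhalf (huun κ hκ))) hexp κ hκ
    · change ‖qq z (uu κ) - 2 * Real.pi * Complex.I * κ‖ ≤ T
      rw [hzval _ hu, hXeq κ hκ, add_sub_cancel_left]
      have h4 := hℓb _ (huun κ hκ)
      have h5 := hT₂ T hT2
      linarith

/-- **job OV1** -/
theorem ov1 (h1 : S_sheet) (h2 : S_fixp) (h3 : S_axK) : S_ov1 := ov1X (rayX h1 h2) h3

end Pool.Agent.H79.EX
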