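import Pool.Agent.H664.FH.Ana

/-! JOB OV1 of project EX (helper664), analytic part: functions with small derivatives and
integral values. -/

set_option autoImplicit false

namespace Pool.Agent.H79.EX

open Filter Topology Metric Pool.Agent.H664.FH

/-! ### Finite differences -/

theorem hasDerivAt_fwdDiff_iter {g g' : ℝ → ℂ} {a x : ℝ} (n : ℕ)
    (h : ∀ k ≤ n, HasDerivAt g (g' (x + k • a)) (x + k • a)) :
    HasDerivAt ((fwdDiff a)^[n] g) ((fwdDiff a)^[n] g' x) x := by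
  have e : (fwdDiff a)^[n] g = fun y => ∑ k ∈ Finset.range (n + 1),
      ((-1 : ℤ) ^ (n - k) * n.choose k) • g (y + k • a) := by
    funext y
    exact fwdDiff_iter_eq_sum_shift a g n y
  rw [e, fwdDiff_iter_eq_sum_shift a g' n x]
  refine HasDerivAt.fun_sum fun k hk => ?_
  have hk' : k ≤ n := Nat.lt_succ_iff.1 (Finset.mem_range.1 hk)
  have h1 := (h k hk').comp_add_const x (k • a)
  have h2 := h1.const_smul (((-1 : ℤ) ^ (n - k) * n.choose k) : ℤ)
  exact h2

theorem fd_est {G : ℕ → ℝ → ℂ} {N : ℕ} {a b η : ℝ} {w : ℂ} (ha : 0 ≤ a)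
    (hd : ∀ j < N, ∀ x, b ≤ x → x ≤ b + N * a → HasDerivAt (G j) (G (j + 1) x) x)
    (hw : ∀ x, b ≤ x → x ≤ b + N * a → ‖G N x - w‖ ≤ η) :
    ‖(fwdDiff a)^[N] (G 0) b - (a : ℂ) ^ N * w‖ ≤ a ^ N * η := by
  have key : ∀ n ≤ N, ∀ x, b ≤ x → x + n * a ≤ b + N * a →
      ‖(fwdDiff a)^[n] (G (N - n)) x - (a : ℂ) ^ n * w‖ ≤ a ^ n * η := by
    intro n
    induction n with
    | zero =>
      intro _ x hx hx2
      simp only [Function.iterate_zero, id_eq, Nat.sub_zero, pow_zero, one_mul]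
      exact hw x hx (by simpa using hx2)
    | succ n ih =>
      intro hn x hx hx2
      have hn' : n ≤ N := Nat.le_of_succ_le hn
      push_cast at hx2
      obtain ⟨m, rfl⟩ := Nat.exists_eq_add_of_le hn
      have e1 : n + 1 + m - (n + 1) = m := by omega
      have e2 : n + 1 + m - n = m + 1 := by omega
      rw [e2] at ih
      rw [e1]
      set Φ : ℝ → ℂ := (fwdDiff a)^[n] (G m) with hΦ
      have hder : ∀ s ∈ Set.Icc x (x + a), HasDerivAt Φ ((fwdDiff a)^[n] (G (m + 1)) s) s := by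
        intro s hs
        refine hasDerivAt_fwdDiff_iter n fun k hk => ?_
        have hk' : (k : ℝ) ≤ n := by exact_mod_cast hk
        have hk0 : (0 : ℝ) ≤ k := Nat.cast_nonneg k
        have hka : (k : ℝ) * a ≤ n * a := by gcongr
        have hka0 : 0 ≤ (k : ℝ) * a := by positivity
        refine hd m (by omega) _ ?_ ?_
        · rw [nsmul_eq_mul]; linarith [hs.1]
        · rw [nsmul_eq_mul]; linarith [hs.2]
      have hder2 : ∀ s ∈ Set.Icc x (x + a), HasDerivWithinAt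
          (fun s : ℝ => Φ s - (a : ℂ) ^ n * w * (s : ℂ))
          ((fwdDiff a)^[n] (G (m + 1)) s - (a : ℂ) ^ n * w) (Set.Icc x (x + a)) s := by
        intro s hs
        have h1 : HasDerivAt (fun s : ℝ => (a : ℂ) ^ n * w * (s : ℂ)) ((a : ℂ) ^ n * w) s := by
          have := (Complex.ofRealCLM.hasDerivAt (x := s)).const_mul ((a : ℂ) ^ n * w)
          simpa using this
        exact ((hder s hs).sub h1).hasDerivWithinAt
      have hbd : ∀ s ∈ Set.Icc x (x + a),
          ‖(fwdDiff a)^[n] (G (m + 1)) s - (a : ℂ) ^ n * w‖ ≤ a ^ n * η := by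
        intro s hs
        refine ih hn' s (hx.trans hs.1) ?_
        push_cast at hx2 ⊢
        linarith [hs.2]
      have hmv := (convex_Icc x (x + a)).norm_image_sub_le_of_norm_hasDerivWithin_le hder2 hbd
        (Set.left_mem_Icc.2 (by linarith)) (Set.right_mem_Icc.2 (by linarith))
      have e3 : (fwdDiff a)^[n + 1] (G m) x = Φ (x + a) - Φ x := by
        rw [Function.iterate_succ_apply']
        rfl
      rw [e3]
      have e4 : Φ (x + a) - Φ x - (a : ℂ) ^ (n + 1) * w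
          = (Φ (x + a) - (a : ℂ) ^ n * w * ((x + a : ℝ) : ℂ)) - (Φ x - (a : ℂ) ^ n * w * (x : ℂ)) := by
        push_cast
        ring
      rw [e4]
      refine hmv.trans (le_of_eq ?_)
      rw [show x + a - x = a by ring, Real.norm_eq_abs, abs_of_nonneg ha]
      ring
  have := key N le_rfl b le_rfl le_rfl
  rwa [Nat.sub_self] at this

/-- an iterated difference of integral values is an integer -/
theorem fd_int {f : ℝ → ℂ} {N : ℕ} {a b : ℝ} (h : ∀ k ≤ N, ∃ n : ℤ, f (b + k • a) = n) :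
    ∃ n : ℤ, (fwdDiff a)^[N] f b = n := by
  choose! n hn using h
  refine ⟨∑ k ∈ Finset.range (N + 1), ((-1 : ℤ) ^ (N - k) * N.choose k) * n k, ?_⟩
  rw [fwdDiff_iter_eq_sum_shift]
  push_cast
  refine Finset.sum_congr rfl fun k hk => ?_
  rw [hn k (Nat.lt_succ_iff.1 (Finset.mem_range.1 hk)), zsmul_eq_mul]
  push_cast
  ring

/-! ### A finite van der Waerden theorem -/

theorem window (ι : Type) [Finite ι] (N : ℕ) : ∃ L : ℕ, ∀ (T : ℕ) (col : ℕ → ι),
    ∃ (i : ι) (b a : ℕ), T ≤ b ∧ 1 ≤ a ∧ a ≤ L ∧ b + N * a ≤ T + L ∧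
      ∀ j ≤ N, col (b + j * a) = i := by
  obtain ⟨σ, _, hσ⟩ := Combinatorics.Line.exists_mono_in_high_dimension (Fin (N + 1)) ι
  classical
  refine ⟨(N + 1) * Fintype.card σ, fun T col => ?_⟩
  obtain ⟨l, i, hl⟩ := hσ (fun v => col (T + ∑ s, (v s : ℕ)))
  set A : Finset σ := Finset.univ.filter fun s => l.idxFun s = none with hA
  set b : ℕ := T + ∑ s, ((l.idxFun s).getD 0 : Fin (N + 1)).1 with hb
  have hsum : ∀ x : Fin (N + 1), T + ∑ s, ((l x s : Fin (N + 1)) : ℕ) = b + x * A.card := by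
    intro x
    rw [hb, add_assoc]
    congr 1
    have h1 : ∀ s, ((l x s : Fin (N + 1)) : ℕ)
        = ((l.idxFun s).getD 0 : Fin (N + 1)).1 + (if l.idxFun s = none then (x : ℕ) else 0) := by
      intro s
      have : l x s = (l.idxFun s).getD x := rfl
      rw [this]
      cases l.idxFun s with
      | none => simp
      | some y => simp
    rw [Finset.sum_congr rfl fun s _ => h1 s, Finset.sum_add_distrib]
    congr 1
    rw [← Finset.sum_filter, Finset.sum_const, smul_eq_mul, mul_comm]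
  have hApos : 1 ≤ A.card := by
    obtain ⟨s, hs⟩ := l.proper
    exact Finset.card_pos.2 ⟨s, by rw [hA, Finset.mem_filter]; exact ⟨Finset.mem_univ _, hs⟩⟩
  have hAle : A.card ≤ Fintype.card σ := Finset.card_le_univ A
  refine ⟨i, b, A.card, Nat.le_add_right _ _, hApos, ?_, ?_, ?_⟩
  · calc A.card ≤ Fintype.card σ := hAle
      _ ≤ (N + 1) * Fintype.card σ := Nat.le_mul_of_pos_left _ (Nat.succ_pos N)
  · have h2 := hsum (Fin.last N)
    rw [Fin.val_last] at h2
    rw [← h2]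
    have h3 : ∑ s, ((l (Fin.last N) s : Fin (N + 1)) : ℕ) ≤ ∑ _s : σ, N :=
      Finset.sum_le_sum fun s _ => Nat.lt_succ_iff.1 (l (Fin.last N) s).2
    rw [Finset.sum_const, smul_eq_mul, Finset.card_univ, mul_comm] at h3
    calc _ ≤ T + N * Fintype.card σ := Nat.add_le_add_left h3 T
      _ ≤ _ := by
        apply Nat.add_le_add_left
        exact Nat.mul_le_mul_right _ (Nat.le_succ N)
  · intro j hj
    have h2 := hsum ⟨j, Nat.lt_succ_of_le hj⟩
    have h3 := hl ⟨j, Nat.lt_succ_of_le hj⟩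
    simp only at h2 h3
    rw [← h2]
    exact h3

/-! ### The analytic argument -/

/-- a holomorphic function without zeros on `ball c r` with `|log |u|| ≤ B` is almost constant near
the centre -/
theorem almost_const {u : ℂ → ℂ} {c : ℂ} {r B : ℝ} (hr : 0 < r) (hB : 0 ≤ B)
    (hu : DifferentiableOn ℂ u (ball c r))
    (hb : ∀ κ ∈ ball c r, Real.exp (-B) ≤ ‖u κ‖ ∧ ‖u κ‖ ≤ Real.exp B) {x : ℂ}
    (hx : ‖x - c‖ < r / 4) (hx2 : 8 * (6 * B + 10) / r * ‖x - c‖ ≤ 1 / 4) :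
    ‖u x - u c‖ ≤ ‖u c‖ / 2 := by
  have hc : c ∈ ball c r := mem_ball_self hr
  have hu0 : ∀ κ ∈ ball c r, u κ ≠ 0 := fun κ hκ h0 => by
    have := (hb κ hκ).1
    rw [h0, norm_zero] at this
    exact absurd this (not_le.2 (Real.exp_pos _))
  obtain ⟨l, hl, hle, hlc⟩ := log_conv isOpen_ball (convex_ball c r) hc hu hu0
  have hre : ∀ κ ∈ ball c r, |(l κ).re| ≤ B := by
    intro κ hκ
    have h1 := hb κ hκ
    rw [← hle κ hκ, Complex.norm_exp, Real.exp_le_exp, Real.exp_le_exp] at h1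
    exact abs_le.2 h1
  have him : |(l c).im| ≤ Real.pi := by
    rw [hlc, Complex.log_im]
    exact Complex.abs_arg_le_pi _
  have hbc := bc_ball hB hl hre him
  have h2 := lip_disc (f := l) (c := c) (r := r / 2) (C := 6 * B + 10)
    (hl.mono (ball_subset_ball (by linarith))) hbc (z := c) (z' := x)
    (mem_ball_self (by positivity)) (by
      rw [mem_ball, dist_eq_norm]; linarith) (by linarith)
  have h3 : ‖l x - l c‖ ≤ 1 / 4 := by
    refine h2.trans (le_trans (le_of_eq ?_) hx2)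
    field_simp
    ring
  have hxb : x ∈ ball c r := by rw [mem_ball, dist_eq_norm]; linarith
  have e : u x - u c = u c * (Complex.exp (l x - l c) - 1) := by
    rw [Complex.exp_sub, hle x hxb, hle c hc, mul_sub, mul_div_cancel₀ _ (hu0 c hc), mul_one]
  rw [e, norm_mul]
  have h4 := Complex.norm_exp_sub_one_le (x := l x - l c) (by linarith)
  have h5 : ‖Complex.exp (l x - l c) - 1‖ ≤ 1 / 2 := by linarith
  calc ‖u c‖ * ‖Complex.exp (l x - l c) - 1‖ ≤ ‖u c‖ * (1 / 2) := by gcongr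
    _ = ‖u c‖ / 2 := by ring

theorem iter_eq {F : ℕ → ℂ → ℂ} {N : ℕ} {c : ℂ} {r : ℝ}
    (hd : ∀ j < N, ∀ κ ∈ ball c r, HasDerivAt (F j) (F (j + 1) κ) κ) :
    ∀ j ≤ N, ∀ κ ∈ ball c r, iteratedDeriv j (F 0) κ = F j κ := by
  intro j
  induction j with
  | zero => intro _ κ _; simp
  | succ j ih =>
    intro hj κ hκ
    rw [iteratedDeriv_succ]
    have h1 : iteratedDeriv j (F 0) =ᶠ[𝓝 κ] F j := by
      filter_upwards [isOpen_ball.mem_nhds hκ] with x hx using ih (Nat.le_of_succ_le hj) x hx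
    rw [h1.deriv_eq]
    exact (hd j hj κ hκ).deriv

theorem an (ι : Type) [Finite ι] (d : ℕ) (c : ℝ) (hc : 0 ≤ c) : ∀ C : ℝ, 0 ≤ C →
    ∃ T₁ : ℕ, ∀ T : ℕ, T₁ ≤ T → ∀ F : ι → ℕ → ℂ → ℂ,
      (∀ i, ∀ j < d + 1, ∀ κ ∈ ball (T : ℂ) (T / 4), HasDerivAt (F i j) (F i (j + 1) κ) κ) →
      (∀ i, DifferentiableOn ℂ (F i (d + 1)) (ball (T : ℂ) (T / 4))) →
      (∀ i, ∀ κ ∈ ball (T : ℂ) (T / 8), ‖F i 0 κ‖ ≤ c * T ^ d) →
      (∀ k : ℕ, (k : ℂ) ∈ ball (T : ℂ) (T / 4) → ∃ i, ∃ n : ℤ, F i 0 k = n) →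
      ∃ i, ¬ (∀ κ ∈ ball (T : ℂ) (T / 4), Real.exp (-(C * Real.log T)) ≤ ‖F i (d + 1) κ‖ ∧
          ‖F i (d + 1) κ‖ ≤ Real.exp (C * Real.log T)) ∧
        ∃ b a : ℕ, T ≤ b ∧ 1 ≤ a ∧ ((b : ℝ) + a < T + T / 4) ∧ (∃ n : ℤ, F i 0 b = n) ∧
          ∃ n : ℤ, F i 0 ((b + a : ℕ) : ℂ) = n := by
  obtain ⟨L, hL⟩ := window ι (d + 1)
  intro C hC
  -- the largeness conditions
  have hlog : Tendsto (fun T : ℕ => Real.log T / T) atTop (𝓝 0) :=
    (Real.isLittleO_log_id_atTop.tendsto_div_nhds_zero).comp tendsto_natCast_atTop_atTop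
  have hinv : Tendsto (fun T : ℕ => ((T : ℝ))⁻¹) atTop (𝓝 0) :=
    tendsto_inv_atTop_zero.comp tendsto_natCast_atTop_atTop
  have hcond1 : ∀ᶠ T : ℕ in atTop,
      8 * (6 * (C * Real.log T) + 10) / ((T : ℝ) / 4) * L ≤ 1 / 4 := by
    have h1 : Tendsto (fun T : ℕ => 192 * C * L * (Real.log T / T) + 320 * L * ((T : ℝ))⁻¹) atTop
        (𝓝 (192 * C * L * 0 + 320 * L * 0)) := (hlog.const_mul _).add (hinv.const_mul _)
    rw [mul_zero, mul_zero, add_zero] at h1
    filter_upwards [h1.eventually (gt_mem_nhds (show (0 : ℝ) < 1 / 4 by norm_num)),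
      eventually_gt_atTop 0] with T hT hT0
    have hT0' : (0 : ℝ) < T := by exact_mod_cast hT0
    refine le_trans (le_of_eq ?_) hT.le
    field_simp
    ring
  have hcond2 : ∀ᶠ T : ℕ in atTop,
      3 / 2 * (L : ℝ) ^ (d + 1) * ((d + 1).factorial * c * 16 ^ (d + 1)) * ((T : ℝ))⁻¹ < 1 := by
    have h1 := hinv.const_mul (3 / 2 * (L : ℝ) ^ (d + 1) * ((d + 1).factorial * c * 16 ^ (d + 1)))
    rw [mul_zero] at h1
    exact h1.eventually (gt_mem_nhds (show (0 : ℝ) < 1 by norm_num))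
  obtain ⟨T₁, hT₁⟩ := Filter.eventually_atTop.1 (hcond1.and hcond2)
  refine ⟨max T₁ (32 * L + 32), fun T hT F hd hdN hb hint => ?_⟩
  obtain ⟨hc1, hc2⟩ := hT₁ T ((le_max_left _ _).trans hT)
  have hT2 : 32 * L + 32 ≤ T := (le_max_right _ _).trans hT
  have hT2' : 32 * (L : ℝ) + 32 ≤ T := by exact_mod_cast hT2
  have hL0 : (0 : ℝ) ≤ L := Nat.cast_nonneg L
  have hT0 : (0 : ℝ) < T := by linarith
  have hT1 : (1 : ℝ) ≤ T := by linarith
  have hlogT : 0 ≤ Real.log T := Real.log_nonneg hT1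
  have hmem : ∀ k : ℕ, T ≤ k → k ≤ T + L → (k : ℂ) ∈ ball (T : ℂ) (T / 4) := by
    intro k hk1 hk2
    have h1 : (T : ℝ) ≤ k := by exact_mod_cast hk1
    have h2 : (k : ℝ) ≤ T + L := by exact_mod_cast hk2
    rw [mem_ball, dist_eq_norm, ← Complex.ofReal_natCast, ← Complex.ofReal_natCast,
      ← Complex.ofReal_sub, Complex.norm_real, Real.norm_eq_abs, abs_of_nonneg (by linarith)]
    linarith
  classical
  obtain ⟨i₀, -⟩ := hint T (hmem T le_rfl (Nat.le_add_right _ _))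
  let col : ℕ → ι := fun k =>
    if hk : (k : ℂ) ∈ ball (T : ℂ) (T / 4) then (hint k hk).choose else i₀
  have hcol : ∀ k : ℕ, (k : ℂ) ∈ ball (T : ℂ) (T / 4) → ∃ n : ℤ, F (col k) 0 k = n := by
    intro k hk
    simp only [col, dif_pos hk]
    exact (hint k hk).choose_spec
  obtain ⟨i, b, a, hTb, ha1, haL, hbL, hcoli⟩ := hL T col
  have hbj : ∀ j ≤ d + 1, b + j * a ≤ T + L := fun j hj =>
    (Nat.add_le_add_left (Nat.mul_le_mul_right a hj) b).trans hbL
  have hintj : ∀ j ≤ d + 1, ∃ n : ℤ, F i 0 ((b + j * a : ℕ) : ℂ) = n := by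
    intro j hj
    have := hcol (b + j * a) (hmem _ (hTb.trans (Nat.le_add_right _ _)) (hbj j hj))
    rwa [hcoli j hj] at this
  have hTb' : (T : ℝ) ≤ b := by exact_mod_cast hTb
  have ha1' : (1 : ℝ) ≤ a := by exact_mod_cast ha1
  have haL' : (a : ℝ) ≤ L := by exact_mod_cast haL
  have hbL' : (b : ℝ) + (d + 1 : ℕ) * a ≤ T + L := by exact_mod_cast hbL
  refine ⟨i, fun hbd => ?_, b, a, hTb, ha1, ?_, ?_, ?_⟩
  · -- the contradiction
    set u : ℂ → ℂ := F i (d + 1) with hu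
    have hr : (0 : ℝ) < T / 4 := by positivity
    have hTmem : (T : ℂ) ∈ ball (T : ℂ) (T / 4) := mem_ball_self hr
    have hux : ∀ x : ℝ, (b : ℝ) ≤ x → x ≤ b + (d + 1 : ℕ) * a → ‖u x - u T‖ ≤ ‖u T‖ / 2 := by
      intro x hx1 hx2
      have hxT : ‖(x : ℂ) - T‖ = x - T := by
        rw [← Complex.ofReal_natCast, ← Complex.ofReal_sub, Complex.norm_real, Real.norm_eq_abs,
          abs_of_nonneg (by linarith)]
      refine almost_const hr (mul_nonneg hC hlogT) (hdN i) hbd ?_ ?_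
      · rw [hxT]; linarith
      · rw [hxT]
        refine le_trans ?_ hc1
        have : 0 ≤ 8 * (6 * (C * Real.log T) + 10) / ((T : ℝ) / 4) := by positivity
        gcongr
        linarith
    have hfd := fd_est (G := fun j x => F i j x) (N := d + 1) (a := (a : ℝ)) (b := (b : ℝ))
      (η := ‖u T‖ / 2) (w := u T) (by linarith) (by
        intro j hj x hx1 hx2
        refine (hd i j hj x ?_).comp_ofReal
        rw [mem_ball, dist_eq_norm, ← Complex.ofReal_natCast, ← Complex.ofReal_sub,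
          Complex.norm_real, Real.norm_eq_abs, abs_of_nonneg (by linarith)]
        linarith) hux
    obtain ⟨n, hn⟩ := fd_int (f := fun x : ℝ => F i 0 x) (N := d + 1) (a := (a : ℝ))
      (b := (b : ℝ)) (by
        intro k hk
        obtain ⟨n, hn⟩ := hintj k hk
        refine ⟨n, ?_⟩
        rw [← hn]
        congr 1
        push_cast [nsmul_eq_mul]
        ring)
    have huT : 0 < ‖u T‖ := lt_of_lt_of_le (Real.exp_pos _) (hbd _ hTmem).1
    have hapos : (0 : ℝ) < (a : ℝ) ^ (d + 1) := by positivity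
    rw [hn] at hfd
    have hnorm : ‖((a : ℝ) : ℂ) ^ (d + 1) * u T‖ = (a : ℝ) ^ (d + 1) * ‖u T‖ := by
      rw [norm_mul, norm_pow, Complex.norm_real, Real.norm_eq_abs, abs_of_nonneg (by linarith)]
    have hn0 : n ≠ 0 := by
      rintro rfl
      rw [Int.cast_zero, zero_sub, norm_neg, hnorm] at hfd
      nlinarith
    have hn1 : (1 : ℝ) ≤ ‖(n : ℂ)‖ := by
      rw [Complex.norm_intCast]
      exact_mod_cast Int.one_le_abs hn0
    have hn2 : ‖(n : ℂ)‖ ≤ 3 / 2 * ((a : ℝ) ^ (d + 1) * ‖u T‖) := by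
      have := norm_sub_norm_le (n : ℂ) (((a : ℝ) : ℂ) ^ (d + 1) * u T)
      rw [hnorm] at this
      linarith
    -- Cauchy's estimate
    have hcau : ‖u T‖ ≤ (d + 1).factorial * (c * T ^ d) / (T / 16) ^ (d + 1) := by
      have e1 : iteratedDeriv (d + 1) (F i 0) (T : ℂ) = u T :=
        iter_eq (F := F i) (N := d + 1) (hd i) (d + 1) le_rfl _ hTmem
      rw [← e1]
      have hdo : DifferentiableOn ℂ (F i 0) (ball (T : ℂ) (T / 4)) := fun κ hκ =>
        (hd i 0 (Nat.succ_pos d) κ hκ).differentiableAt.differentiableWithinAt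
      refine Complex.norm_iteratedDeriv_le_of_forall_mem_sphere_norm_le (d + 1) (by positivity)
        (DifferentiableOn.diffContOnCl ?_) (fun z hz => hb i z ?_)
      · refine hdo.mono ?_
        refine closure_ball_subset_closedBall.trans (closedBall_subset_ball ?_)
        linarith
      · rw [mem_sphere] at hz
        rw [mem_ball, hz]
        linarith
    have hcau2 : ‖u T‖ ≤ (d + 1).factorial * c * 16 ^ (d + 1) * ((T : ℝ))⁻¹ := by
      refine hcau.trans (le_of_eq ?_)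
      rw [div_pow, pow_succ (T : ℝ) d]
      field_simp
    have : ‖(n : ℂ)‖ < 1 := by
      calc ‖(n : ℂ)‖ ≤ 3 / 2 * ((a : ℝ) ^ (d + 1) * ‖u T‖) := hn2
        _ ≤ 3 / 2 * ((L : ℝ) ^ (d + 1) * ((d + 1).factorial * c * 16 ^ (d + 1) * ((T : ℝ))⁻¹)) := by
            gcongr
        _ = _ := by ring
        _ < 1 := hc2
    linarith
  · have : (b : ℝ) + a ≤ b + (d + 1 : ℕ) * a := by
      have h1 : (1 : ℝ) ≤ (d + 1 : ℕ) := by exact_mod_cast Nat.succ_le_succ (Nat.zero_le d)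
      nlinarith
    linarith
  · have := hintj 0 (Nat.zero_le _)
    simpa using this
  · have := hintj 1 (Nat.succ_le_succ (Nat.zero_le d))
    simpa using this

end Pool.Agent.H79.EX
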